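import Pool.Agent.Lib.BT77.Defs

/-! Rows of the proof. -/

namespace Pool.Agent.Lib.BT77

open scoped ComplexConjugate
open NumberField

/-- the affine function that vanishes on side `b` and is positive inside -/
def lam {m : ℕ} (V : ZMod m → ℂ) (b : ZMod m) (z : ℂ) : ℝ := (conj (side V b) * (z - V b)).im

/-- all side directions differ by `M`-th roots of unity -/
def RootDir {m : ℕ} (V : ZMod m → ℂ) (M : ℕ) : Prop :=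
  ∀ a, (side V a / conj (side V a) * (conj (side V 0) / side V 0)) ^ M = 1

/-- ideal divisors -/
def IDV : Prop := ∀ (K : Type) [Field K] [NumberField K] (ε : ℝ), 0 < ε → ∃ C : ℝ,
  ∀ J : Ideal (𝓞 K), J ≠ ⊥ →
    {I : Ideal (𝓞 K) | I ∣ J}.Finite ∧
      ({I : Ideal (𝓞 K) | I ∣ J}.ncard : ℝ) ≤ C * (Ideal.absNorm J : ℝ) ^ ε

/-- generators of one ideal with small conjugates -/
def GEN : Prop := ∀ (K : Type) [Field K] [NumberField K] (ε : ℝ), 0 < ε → ∃ C : ℝ,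
  ∀ (B : ℝ) (I : Ideal (𝓞 K)), 1 ≤ B → I ≠ ⊥ →
    ({a : 𝓞 K | Ideal.span {a} = I ∧ ∀ σ : K →+* ℂ, ‖σ (a : K)‖ ≤ B}.ncard : ℝ) ≤ C * B ^ ε

/-- divisors with small conjugates -/
def NT : Prop := ∀ (K : Type) [Field K] [NumberField K] (ε : ℝ), 0 < ε → ∃ C : ℝ,
  ∀ (B : ℝ) (b : 𝓞 K), 1 ≤ B → b ≠ 0 → (∀ σ : K →+* ℂ, ‖σ (b : K)‖ ≤ B) →
    {a : 𝓞 K | a ∣ b ∧ ∀ σ : K →+* ℂ, ‖σ (a : K)‖ ≤ B}.Finite ∧
      ({a : 𝓞 K | a ∣ b ∧ ∀ σ : K →+* ℂ, ‖σ (a : K)‖ ≤ B}.ncard : ℝ) ≤ C * B ^ ε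

/-- short sums on a circle -/
def sums (T : Set ℂ) (N r : ℝ) : Set ℂ :=
  {z | ‖z‖ = r ∧ ∃ (n : ℕ) (f : ℕ → ℂ), (n : ℝ) ≤ N ∧ (∀ i, f i ∈ T) ∧
    z = ∑ i ∈ Finset.range n, f i}

def CIRCG : Prop := ∀ T : Set ℂ, T.Finite → ∀ ε : ℝ, 0 < ε →
  ∃ C : ℝ, ∀ N r : ℝ, 1 ≤ N → 0 < r →
    (sums T N r).Finite ∧ ((sums T N r).ncard : ℝ) ≤ C * N ^ ε

/-- positivity on the other sides -/
def POS : Prop := ∀ (m : ℕ) (V : ZMod m → ℂ), 3 ≤ m → IsConvexPolygon V →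
  (∀ a, side V a ≠ 0) ∧ (∀ a k, 0 ≤ lam V a (V k)) ∧
  ∀ a z, z ∈ openSegment ℝ (V a) (V (a + 1)) → lam V a z = 0 ∧ ∀ b, b ≠ a → 0 < lam V b z

/-- determinism -/
def DET : Prop := ∀ (m : ℕ) (V : ZMod m → ℂ), 3 ≤ m → IsConvexPolygon V →
  ∀ s p u s' p' u', IsTraj V s p u → IsTraj V s' p' u' → s 0 = s' 0 → p 0 = p' 0 → u 0 = u' 0 →
    ∀ i, s i = s' i ∧ p i = p' i ∧ u i = u' i

/-- the band of a closed trajectory reaches a vertex -/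
def EXT : Prop := ∀ (m : ℕ) (V : ZMod m → ℂ), 3 ≤ m → IsConvexPolygon V →
  ∀ s p u n L, IsTraj V s p u → IsClosed s p u n L → ∃ (k : ℕ) (e : Bool) (t₀ : ℝ),
    0 < t₀ ∧ t₀ < 1 ∧ ∀ t : ℝ, 0 < t → t < 1 → (if e then t₀ ≤ t else t ≤ t₀) →
      ∃ q, IsTraj V s q u ∧ q k = V (s k) + t * side V (s k)

/-- rational angles give roots of unity -/
def RAT : Prop := ∀ (m : ℕ) (V : ZMod m → ℂ), 3 ≤ m → IsConvexPolygon V →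
  (∀ a, ∃ q : ℚ, EuclideanGeometry.angle (V (a - 1)) (V a) (V (a + 1)) = Real.pi * q) →
  ∃ M, 0 < M ∧ RootDir V M

/-- the directions of one trajectory -/
def DIR : Prop := ∀ (m : ℕ) (V : ZMod m → ℂ) (M : ℕ), (∀ a, side V a ≠ 0) → RootDir V M →
  ∀ s p u, IsTraj V s p u → ∀ i, ∃ c : ℂ, c ^ M = 1 ∧ ‖c‖ = 1 ∧
    u i = if Even i then c * u 0 else c * (side V 0 / conj (side V 0)) * conj (u 0)

/-- the number of bounces is linear in the length -/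
def BOUNCE : Prop := ∀ (m : ℕ) (V : ZMod m → ℂ) (M : ℕ), 3 ≤ m → IsConvexPolygon V → 0 < M →
  RootDir V M → ∃ C : ℝ, 0 < C ∧ ∀ s p u n L, IsTraj V s p u → IsClosed s p u n L → (n : ℝ) ≤ C * L

/-- the finite set of summands -/
def terms {m : ℕ} (V : ZMod m → ℂ) (M : ℕ) : Set ℂ :=
  {z | ∃ (c : ℂ) (a : ZMod m), c ^ (2 * M) = 1 ∧
    (z = c * ((V a - V 0) / side V 0) ∨ z = c * conj ((V a - V 0) / side V 0))}

/-- the holonomy is a short sum -/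
def HOL : Prop := ∀ (m : ℕ) (V : ZMod m → ℂ) (M : ℕ), (∀ a, side V a ≠ 0) → RootDir V M →
  ∀ s p u n L, IsTraj V s p u → IsClosed s p u n L → ∃ f : ℕ → ℂ, (∀ i, f i ∈ terms V M) ∧
    2 * (L : ℂ) * u 0 / side V 0 = ∑ i ∈ Finset.range (4 * n), f i

def MAIN : Prop := ∀ (m : ℕ) (V : ZMod m → ℂ), 3 ≤ m → IsConvexPolygon V →
  (∀ a, ∃ q : ℚ, EuclideanGeometry.angle (V (a - 1)) (V a) (V (a + 1)) = Real.pi * q) →
  ∀ ε : ℝ, 0 < ε → ∃ C : ℝ, ∀ L : ℝ, 1 ≤ L → (bands V L).Finite ∧ ((bands V L).ncard : ℝ) ≤ C * L ^ ε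

end Pool.Agent.Lib.BT77
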