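import Pool.Agent.Lib.BT77.Blue

/-! Row GEN: generators of one ideal with small conjugates. -/

namespace Pool.Agent.Lib.BT77

open NumberField

namespace GEN

variable {K : Type} [Field K] [NumberField K]

lemma one_le_prod (a : 𝓞 K) (ha : a ≠ 0) : 1 ≤ ∏ σ : K →+* ℂ, ‖σ (a : K)‖ := by
  have h1 := congrArg (‖·‖) (Algebra.norm_eq_prod_embeddings ℚ ℂ (a : K))
  simp only [norm_prod] at h1
  rw [Fintype.prod_equiv (RingHom.equivRatAlgHom K ℂ) (fun f : K →+* ℂ => ‖f (a : K)‖)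
    (fun φ => ‖φ (a : K)‖) (fun _ => by simp [RingHom.equivRatAlgHom_apply]), ← h1,
    ← Algebra.coe_norm_int]
  have h2 : Algebra.norm ℤ a ≠ 0 := Algebra.norm_ne_zero_iff.2 ha
  have h3 : (1 : ℤ) ≤ |Algebra.norm ℤ a| := Int.one_le_abs h2
  have h4 : (1 : ℝ) ≤ |((Algebra.norm ℤ a : ℤ) : ℝ)| := by exact_mod_cast h3
  simpa using h4

lemma lower (a : 𝓞 K) (ha : a ≠ 0) (B : ℝ) (hB : 1 ≤ B) (h : ∀ σ : K →+* ℂ, ‖σ (a : K)‖ ≤ B)
    (σ : K →+* ℂ) : 1 ≤ ‖σ (a : K)‖ * B ^ Fintype.card (K →+* ℂ) := by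
  classical
  have h1 := one_le_prod a ha
  rw [← Finset.mul_prod_erase Finset.univ _ (Finset.mem_univ σ)] at h1
  refine h1.trans (mul_le_mul_of_nonneg_left ?_ (norm_nonneg _))
  calc ∏ τ ∈ Finset.univ.erase σ, ‖τ (a : K)‖ ≤ ∏ _τ ∈ Finset.univ.erase σ, B :=
        Finset.prod_le_prod (fun _ _ => norm_nonneg _) fun τ _ => h τ
    _ = B ^ (Finset.univ.erase σ).card := Finset.prod_const _
    _ ≤ B ^ Fintype.card (K →+* ℂ) := pow_le_pow_right₀ hB (Finset.card_le_univ _)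

omit [NumberField K] in
lemma norm_pos (a : 𝓞 K) (ha : a ≠ 0) (σ : K →+* ℂ) : 0 < ‖σ (a : K)‖ := by
  rw [norm_pos_iff, map_ne_zero]
  exact RingOfIntegers.coe_ne_zero_iff.2 ha

/-- the cell of an integer -/
noncomputable def cell (B : ℝ) (a : 𝓞 K) (σ : K →+* ℂ) : ℕ := ⌊Real.log B - Real.log ‖σ (a : K)‖⌋₊

lemma cell_le (a : 𝓞 K) (ha : a ≠ 0) (B : ℝ) (hB : 1 ≤ B) (h : ∀ σ : K →+* ℂ, ‖σ (a : K)‖ ≤ B)
    (σ : K →+* ℂ) : cell B a σ ≤ ⌊((Fintype.card (K →+* ℂ) : ℝ) + 1) * Real.log B⌋₊ := by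
  refine Nat.floor_le_floor ?_
  have h1 := Real.log_nonneg (lower a ha B hB h σ)
  have hB0 : (0 : ℝ) < B := by linarith
  rw [Real.log_mul (norm_pos a ha σ).ne' (pow_pos hB0 _).ne', Real.log_pow] at h1
  linarith

omit [NumberField K] in
lemma ratio_le (a a' : 𝓞 K) (ha : a ≠ 0) (ha' : a' ≠ 0) (B : ℝ) (σ : K →+* ℂ)
    (h : ‖σ (a : K)‖ ≤ B) (hc : cell B a σ = cell B a' σ) :
    ‖σ ((a : K) / (a' : K))‖ ≤ Real.exp 1 := by
  have p1 := norm_pos a ha σ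
  have p2 := norm_pos a' ha' σ
  have h0 : 0 ≤ Real.log B - Real.log ‖σ (a : K)‖ := sub_nonneg.2 (Real.log_le_log p1 h)
  have h1 : (cell B a σ : ℝ) ≤ Real.log B - Real.log ‖σ (a : K)‖ := Nat.floor_le h0
  have h2 : Real.log B - Real.log ‖σ (a' : K)‖ < (cell B a' σ : ℝ) + 1 := Nat.lt_floor_add_one _
  rw [hc] at h1
  rw [map_div₀, norm_div, ← Real.log_le_iff_le_exp (div_pos p1 p2), Real.log_div p1.ne' p2.ne']
  linarith

lemma pow_bound (d : ℕ) (ε : ℝ) (hε : 0 < ε) : ∃ C : ℝ, 0 ≤ C ∧ ∀ B : ℝ, 1 ≤ B →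
    ((⌊((d : ℝ) + 1) * Real.log B⌋₊ : ℝ) + 1) ^ d ≤ C * B ^ ε := by
  have hd : (0 : ℝ) < (d : ℝ) + 1 := by positivity
  have hδ : 0 < ε / ((d : ℝ) + 1) := div_pos hε hd
  refine ⟨(((d : ℝ) + 1) / (ε / ((d : ℝ) + 1)) + 1) ^ d, by positivity, fun B hB => ?_⟩
  have hB0 : (0 : ℝ) ≤ B := by linarith
  have h1 : 1 ≤ B ^ (ε / ((d : ℝ) + 1)) := Real.one_le_rpow hB hδ.le
  have h2 := Real.log_le_rpow_div hB0 hδ
  have h3 : (⌊((d : ℝ) + 1) * Real.log B⌋₊ : ℝ) ≤ ((d : ℝ) + 1) * Real.log B :=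
    Nat.floor_le (mul_nonneg hd.le (Real.log_nonneg hB))
  have h4 : (⌊((d : ℝ) + 1) * Real.log B⌋₊ : ℝ) + 1 ≤
      (((d : ℝ) + 1) / (ε / ((d : ℝ) + 1)) + 1) * B ^ (ε / ((d : ℝ) + 1)) := by
    have h5 := mul_le_mul_of_nonneg_left h2 hd.le
    have h6 : (((d : ℝ) + 1) / (ε / ((d : ℝ) + 1)) + 1) * B ^ (ε / ((d : ℝ) + 1)) =
        ((d : ℝ) + 1) * (B ^ (ε / ((d : ℝ) + 1)) / (ε / ((d : ℝ) + 1))) +
          B ^ (ε / ((d : ℝ) + 1)) := by ring
    rw [h6]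
    linarith
  have h7 : (B ^ (ε / ((d : ℝ) + 1))) ^ (d + 1) = B ^ ε := by
    rw [← Real.rpow_natCast, ← Real.rpow_mul hB0]
    push_cast
    rw [div_mul_cancel₀ _ hd.ne']
  calc ((⌊((d : ℝ) + 1) * Real.log B⌋₊ : ℝ) + 1) ^ d
      ≤ ((((d : ℝ) + 1) / (ε / ((d : ℝ) + 1)) + 1) * B ^ (ε / ((d : ℝ) + 1))) ^ d :=
        pow_le_pow_left₀ (by positivity) h4 d
    _ = (((d : ℝ) + 1) / (ε / ((d : ℝ) + 1)) + 1) ^ d * (B ^ (ε / ((d : ℝ) + 1))) ^ d :=
        mul_pow _ _ _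
    _ ≤ _ := by
        rw [← h7]
        exact mul_le_mul_of_nonneg_left (pow_le_pow_right₀ h1 (Nat.le_succ d)) (by positivity)

end GEN

theorem bGEN : GEN := by
  intro K _ _ ε hε
  classical
  obtain ⟨C, hC, hpow⟩ := GEN.pow_bound (Fintype.card (K →+* ℂ)) ε hε
  have hU := Embeddings.finite_of_norm_le K ℂ (Real.exp 1)
  refine ⟨(hU.toFinset.card : ℝ) * C, fun B I hB hI => ?_⟩
  have hB0 : (0 : ℝ) ≤ B := by linarith
  by_cases hfin : {a : 𝓞 K | Ideal.span {a} = I ∧ ∀ σ : K →+* ℂ, ‖σ (a : K)‖ ≤ B}.Finite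
  swap
  · rw [Set.Infinite.ncard hfin, Nat.cast_zero]
    exact mul_nonneg (mul_nonneg (Nat.cast_nonneg _) hC) (Real.rpow_nonneg hB0 _)
  rw [Set.ncard_eq_toFinset_card _ hfin]
  have hne : ∀ a : 𝓞 K, Ideal.span {a} = I → a ≠ 0 := by
    intro a ha h0
    rw [h0, Ideal.span_singleton_eq_bot.2 rfl] at ha
    exact hI ha.symm
  have hcount : hfin.toFinset.card ≤ hU.toFinset.card *
      (Fintype.piFinset fun _ : K →+* ℂ =>
        Finset.range (⌊((Fintype.card (K →+* ℂ) : ℝ) + 1) * Real.log B⌋₊ + 1)).card := by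
    refine Finset.card_le_mul_card_image_of_maps_to (f := fun a => GEN.cell B a) ?_ _ ?_
    · intro a ha
      rw [Set.Finite.mem_toFinset] at ha
      rw [Fintype.mem_piFinset]
      intro σ
      exact Finset.mem_range.2 (Nat.lt_succ_of_le (GEN.cell_le a (hne a ha.1) B hB ha.2 σ))
    · intro c _
      rcases (hfin.toFinset.filter fun a => GEN.cell B a = c).eq_empty_or_nonempty with he | ⟨a', ha'⟩
      · rw [he]
        exact Nat.zero_le _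
      rw [Finset.mem_filter, Set.Finite.mem_toFinset] at ha'
      have hz : (a' : K) ≠ 0 := RingOfIntegers.coe_ne_zero_iff.2 (hne a' ha'.1.1)
      refine Finset.card_le_card_of_injOn (fun a => (a : K) / (a' : K)) ?_ ?_
      · intro a ha
        rw [Finset.mem_coe, Finset.mem_filter, Set.Finite.mem_toFinset] at ha
        rw [Finset.mem_coe, Set.Finite.mem_toFinset]
        refine ⟨?_, fun σ => GEN.ratio_le a a' (hne a ha.1.1) (hne a' ha'.1.1) B σ (ha.1.2 σ)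
          (congrFun (ha.2.trans ha'.2.symm) σ)⟩
        have hm : a ∈ Ideal.span {a'} := by
          rw [ha'.1.1, ← ha.1.1]
          exact Ideal.mem_span_singleton_self a
        obtain ⟨u, hu⟩ := Ideal.mem_span_singleton'.1 hm
        have hq : (a : K) / (a' : K) = (u : K) := by
          rw [div_eq_iff hz, ← hu]
          simp
        simp only [hq]
        exact u.isIntegral_coe
      · intro a _ b _ hab
        exact RingOfIntegers.ext ((div_left_inj' hz).1 hab)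
  rw [Fintype.card_piFinset, Finset.prod_const, Finset.card_range, Finset.card_univ] at hcount
  have hreal : (hfin.toFinset.card : ℝ) ≤ (hU.toFinset.card : ℝ) *
      ((⌊((Fintype.card (K →+* ℂ) : ℝ) + 1) * Real.log B⌋₊ : ℝ) + 1) ^ Fintype.card (K →+* ℂ) := by
    exact_mod_cast hcount
  rw [mul_assoc]
  exact hreal.trans (mul_le_mul_of_nonneg_left (hpow B hB) (Nat.cast_nonneg _))

end Pool.Agent.Lib.BT77
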