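import Pool.Agent.Lib.BT77.Blue

/-! Row IDV: the divisor bound for ideals of a number field. -/

namespace Pool.Agent.Lib.BT77

open NumberField UniqueFactorizationMonoid

namespace IDV

lemma small {ε x : ℝ} (hε : 0 < ε) (hx : 2 ≤ x) (a : ℕ) :
    (a : ℝ) + 1 ≤ (1 + 1 / (ε * Real.log 2)) * (x ^ a) ^ ε := by
  have l2 : 0 < Real.log 2 := Real.log_pos one_lt_two
  have hδ : 0 < ε * Real.log 2 := mul_pos hε l2
  have a0 : (0 : ℝ) ≤ a := Nat.cast_nonneg a
  have h1 : ((2 : ℝ) ^ a) ^ ε ≤ (x ^ a) ^ ε :=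
    Real.rpow_le_rpow (by positivity) (pow_le_pow_left₀ zero_le_two hx a) hε.le
  have h2 : 1 + ε * Real.log 2 * a ≤ ((2 : ℝ) ^ a) ^ ε := by
    rw [Real.rpow_def_of_pos (by positivity), Real.log_pow]
    have := Real.add_one_le_exp (a * Real.log 2 * ε)
    linarith
  refine le_trans ?_ (mul_le_mul_of_nonneg_left (h2.trans h1) (by positivity))
  have e : (1 + 1 / (ε * Real.log 2)) * (1 + ε * Real.log 2 * a) =
      1 + ε * Real.log 2 * a + 1 / (ε * Real.log 2) + a := by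
    field_simp
    ring
  have p1 : 0 ≤ ε * Real.log 2 * a := by positivity
  have p2 : 0 ≤ 1 / (ε * Real.log 2) := by positivity
  linarith

lemma large {ε x : ℝ} (hx : 0 ≤ x) (h : 2 ≤ x ^ ε) (a : ℕ) : (a : ℝ) + 1 ≤ (x ^ a) ^ ε := by
  have h1 : (x ^ a) ^ ε = (x ^ ε) ^ a := by
    rw [← Real.rpow_natCast, ← Real.rpow_mul hx, mul_comm, Real.rpow_mul hx, Real.rpow_natCast]
  have h2 : (a : ℝ) + 1 ≤ 2 ^ a := by exact_mod_cast Nat.lt_two_pow_self
  rw [h1]
  exact h2.trans (pow_le_pow_left₀ zero_le_two h a)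

end IDV

theorem bIDV : IDV := by
  classical
  intro K _ _ ε hε
  obtain ⟨n, hn⟩ : ∃ n : ℕ, (2 : ℝ) ^ ε⁻¹ ≤ n := exists_nat_ge _
  have hF : {I : Ideal (𝓞 K) | Ideal.absNorm I ≤ n}.Finite := Ideal.finite_setOfPred_absNorm_le n
  obtain ⟨c, hc⟩ : ∃ c : ℝ, c = 1 + 1 / (ε * Real.log 2) := ⟨_, rfl⟩
  have c1 : 1 ≤ c := by
    have : 0 ≤ 1 / (ε * Real.log 2) := by
      have := Real.log_pos one_lt_two
      positivity
    linarith
  refine ⟨c ^ hF.toFinset.card, fun J hJ => ?_⟩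
  have hJ0 : J ≠ 0 := hJ
  have inj : Set.InjOn (fun I : Ideal (𝓞 K) => normalizedFactors I) {I | I ∣ J} := by
    intro I hI I' hI' h
    have h1 : I ≠ ⊥ := ne_zero_of_dvd_ne_zero hJ0 hI
    have h2 : I' ≠ ⊥ := ne_zero_of_dvd_ne_zero hJ0 hI'
    rw [← Ideal.prod_normalizedFactors_eq_self h1, ← Ideal.prod_normalizedFactors_eq_self h2]
    exact congrArg Multiset.prod h
  have maps : ∀ I ∈ {I : Ideal (𝓞 K) | I ∣ J},
      normalizedFactors I ∈ (Finset.Iic (normalizedFactors J) : Set _) := fun I hI =>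
    Finset.mem_coe.2 (Finset.mem_Iic.2 ((dvd_iff_normalizedFactors_le_normalizedFactors
      (ne_zero_of_dvd_ne_zero hJ0 hI) hJ0).1 hI))
  refine ⟨Set.Finite.of_injOn maps inj (Finset.finite_toSet _), ?_⟩
  have h1 := Set.ncard_le_ncard_of_injOn _ maps inj (Finset.finite_toSet _)
  rw [Set.ncard_coe_finset, Multiset.card_Iic] at h1
  have h2 : (Ideal.absNorm J : ℝ) = ∏ P ∈ (normalizedFactors J).toFinset,
      (Ideal.absNorm P : ℝ) ^ (normalizedFactors J).count P := by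
    conv_lhs => rw [← Ideal.prod_normalizedFactors_eq_self hJ, Finset.prod_multiset_count]
    rw [map_prod]
    simp only [map_pow]
    push_cast
    rfl
  rw [h2, ← Real.finsetProd_rpow _ _ (fun _ _ => by positivity)]
  have h3 : ∏ P ∈ (normalizedFactors J).toFinset, (if P ∈ hF.toFinset then c else 1) ≤
      c ^ hF.toFinset.card := by
    rw [Finset.prod_ite_mem, Finset.prod_const]
    exact pow_le_pow_right₀ c1 (Finset.card_le_card Finset.inter_subset_right)
  refine le_trans ?_ (mul_le_mul_of_nonneg_right h3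
    (Finset.prod_nonneg fun _ _ => by positivity))
  rw [← Finset.prod_mul_distrib]
  refine (Nat.cast_le.2 h1).trans ?_
  push_cast
  refine Finset.prod_le_prod (fun _ _ => by positivity) fun P hP => ?_
  have hp : Prime P := prime_of_normalized_factor P (Multiset.mem_toFinset.1 hP)
  split_ifs with h
  · have n0 : Ideal.absNorm P ≠ 0 := fun h0 => hp.ne_zero (Ideal.absNorm_eq_zero_iff.1 h0)
    have n1 : Ideal.absNorm P ≠ 1 := fun h0 =>
      hp.not_isUnit (Ideal.isUnit_iff.2 (Ideal.absNorm_eq_one_iff.1 h0))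
    have n2 : 2 ≤ Ideal.absNorm P := by omega
    rw [hc]
    exact IDV.small hε (by exact_mod_cast n2) _
  · have n1 : (n : ℝ) ≤ Ideal.absNorm P := by
      have : ¬Ideal.absNorm P ≤ n := fun h0 => h (hF.mem_toFinset.2 h0)
      exact_mod_cast (not_le.1 this).le
    rw [one_mul]
    refine IDV.large (Nat.cast_nonneg _) ?_ _
    refine le_trans ?_ (Real.rpow_le_rpow (by positivity) (hn.trans n1) hε.le)
    rw [Real.rpow_inv_rpow zero_le_two hε.ne']

end Pool.Agent.Lib.BT77
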