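import Pool.Agent.Lib.BT77.Blue

/-! Divisors with small conjugates. -/

namespace Pool.Agent.Lib.BT77

open NumberField

namespace NTa

variable {K : Type} [Field K] [NumberField K]

theorem fin (B : ℝ) : {a : 𝓞 K | ∀ σ : K →+* ℂ, ‖σ (a : K)‖ ≤ B}.Finite := by
  refine Set.Finite.of_finite_image (f := fun a : 𝓞 K => (a : K)) ?_
    (RingOfIntegers.coe_injective.injOn)
  refine (Embeddings.finite_of_norm_le K ℂ B).subset ?_
  rintro _ ⟨a, ha, rfl⟩
  exact ⟨a.isIntegral_coe, ha⟩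

theorem norm_le {B : ℝ} {b : 𝓞 K} (hb : ∀ σ : K →+* ℂ, ‖σ (b : K)‖ ≤ B) :
    (Ideal.absNorm (Ideal.span {b}) : ℝ) ≤ B ^ Module.finrank ℚ K := by
  have h1 : (Ideal.absNorm (Ideal.span {b}) : ℝ) = |((Algebra.norm ℚ (b : K) : ℚ) : ℝ)| := by
    rw [Ideal.absNorm_span_singleton, ← Algebra.coe_norm_int, Nat.cast_natAbs]
    push_cast
    rfl
  have h2 : ((Algebra.norm ℚ (b : K) : ℚ) : ℂ) = ∏ σ : K →ₐ[ℚ] ℂ, σ (b : K) := by
    rw [← Algebra.norm_eq_prod_embeddings]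
    simp
  have h3 : |((Algebra.norm ℚ (b : K) : ℚ) : ℝ)| = ∏ σ : K →ₐ[ℚ] ℂ, ‖σ (b : K)‖ := by
    rw [← norm_prod, ← h2, ← Complex.ofReal_ratCast, Complex.norm_real, Real.norm_eq_abs]
  rw [h1, h3, ← AlgHom.card ℚ K ℂ, ← Finset.card_univ, ← Finset.prod_const]
  exact Finset.prod_le_prod (fun _ _ => norm_nonneg _) fun σ _ => hb σ.toRingHom

end NTa

theorem bNT (h1 : IDV) (h2 : GEN) : NT := by
  intro K _ _ ε hε
  classical
  set D : ℕ := Module.finrank ℚ K with hD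
  have hD0 : (0 : ℝ) < D := by exact_mod_cast Module.finrank_pos
  obtain ⟨C1, hC1⟩ := h1 K (ε / 2 / D) (by positivity)
  obtain ⟨C2, hC2⟩ := h2 K (ε / 2) (by positivity)
  refine ⟨max C1 0 * max C2 0, fun B b hB hb0 hb => ?_⟩
  have hB0 : 0 ≤ B := zero_le_one.trans hB
  have hfin : {a : 𝓞 K | a ∣ b ∧ ∀ σ : K →+* ℂ, ‖σ (a : K)‖ ≤ B}.Finite :=
    (NTa.fin B).subset fun a ha => ha.2
  refine ⟨hfin, ?_⟩
  have hJ : Ideal.span {b} ≠ ⊥ := by rwa [Ne, Ideal.span_singleton_eq_bot]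
  obtain ⟨hf, hc⟩ := hC1 _ hJ
  have hcard : hfin.toFinset.card = ∑ I ∈ hf.toFinset,
      (hfin.toFinset.filter fun a => Ideal.span {a} = I).card := by
    refine Finset.card_eq_sum_card_fiberwise fun a ha => ?_
    have ha' : a ∣ b := (hfin.mem_toFinset.1 ha).1
    exact hf.mem_toFinset.2
      (Ideal.dvd_iff_le.2 (Ideal.span_singleton_le_span_singleton.2 ha'))
  have hone : ∀ I ∈ hf.toFinset, ((hfin.toFinset.filter fun a => Ideal.span {a} = I).card : ℝ) ≤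
      max C2 0 * B ^ (ε / 2) := by
    intro I hI
    have hI' : I ∣ Ideal.span {b} := hf.mem_toFinset.1 hI
    have hI0 : I ≠ ⊥ := ne_zero_of_dvd_ne_zero hJ hI'
    have h3 : (hfin.toFinset.filter fun a => Ideal.span {a} = I).card ≤
        {a : 𝓞 K | Ideal.span {a} = I ∧ ∀ σ : K →+* ℂ, ‖σ (a : K)‖ ≤ B}.ncard := by
      rw [← Set.ncard_coe_finset]
      refine Set.ncard_le_ncard ?_ ((NTa.fin B).subset fun a ha => ha.2)
      intro a ha
      obtain ⟨h4, h5⟩ := Finset.mem_filter.1 (Finset.mem_coe.1 ha)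
      exact ⟨h5, (hfin.mem_toFinset.1 h4).2⟩
    exact (Nat.cast_le.2 h3).trans ((hC2 B I hB hI0).trans
      (mul_le_mul_of_nonneg_right (le_max_left _ _) (by positivity)))
  have hN : (Ideal.absNorm (Ideal.span {b}) : ℝ) ^ (ε / 2 / D) ≤ B ^ (ε / 2) := by
    calc _ ≤ (B ^ D) ^ (ε / 2 / D) :=
          Real.rpow_le_rpow (Nat.cast_nonneg _) (NTa.norm_le hb) (by positivity)
      _ = B ^ (ε / 2) := by
          rw [← Real.rpow_natCast, ← Real.rpow_mul hB0, mul_div_cancel₀ _ hD0.ne']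
  have hdiv : (hf.toFinset.card : ℝ) ≤ max C1 0 * B ^ (ε / 2) := by
    rw [← Set.ncard_eq_toFinset_card _ hf]
    exact hc.trans ((mul_le_mul_of_nonneg_right (le_max_left C1 0) (by positivity)).trans
      (mul_le_mul_of_nonneg_left hN (le_max_right _ _)))
  rw [Set.ncard_eq_toFinset_card _ hfin, hcard, Nat.cast_sum]
  refine (Finset.sum_le_card_nsmul _ _ _ hone).trans ?_
  rw [nsmul_eq_mul]
  refine (mul_le_mul_of_nonneg_right hdiv (by positivity)).trans (le_of_eq ?_)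
  rw [mul_mul_mul_comm, ← Real.rpow_add (by positivity), add_halves]

end Pool.Agent.Lib.BT77
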