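import Pool.Agent.Lib.BT77.B_HOL

/-! The number of bounces is linear in the length. -/

namespace Pool.Agent.Lib.BT77

open scoped ComplexConjugate

namespace BOUNCE

variable {m : ℕ} {V : ZMod m → ℂ} {s : ℕ → ZMod m} {p u : ℕ → ℂ}

lemma gap (hm : 3 ≤ m) (hV : IsConvexPolygon V) : ∃ d : ℝ, 0 < d ∧
    ∀ b k, lam V b (V k) < ‖side V b‖ * d → k = b ∨ k = b + 1 := by
  classical
  have : NeZero m := ⟨by omega⟩
  obtain ⟨hs, -, -⟩ := bPOS m V hm hV
  obtain ⟨x, hx⟩ := Finite.exists_min fun x : ZMod m × ZMod m =>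
    if x.2 = x.1 ∨ x.2 = x.1 + 1 then (1 : ℝ) else lam V x.1 (V x.2) / ‖side V x.1‖
  refine ⟨if x.2 = x.1 ∨ x.2 = x.1 + 1 then (1 : ℝ) else lam V x.1 (V x.2) / ‖side V x.1‖,
    ?_, fun b k h => by_contra fun hk => ?_⟩
  · split_ifs with h
    · exact one_pos
    · exact div_pos (hV _ _ (not_or.1 h).1 (not_or.1 h).2) (norm_pos_iff.2 (hs _))
  · have := hx (b, k)
    simp only [if_neg hk] at this
    rw [le_div_iff₀ (norm_pos_iff.2 (hs _))] at this
    linarith

lemma unf_real (i : ℕ) (r : ℝ) (z : ℂ) : unf u i (r * z) = r * unf u i z := by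
  unfold unf; split_ifs
  · ring
  · rw [map_mul, Complex.conj_ofReal]; ring

lemma trans (hm : 3 ≤ m) (hV : IsConvexPolygon V) (h : IsTraj V s p u) (i : ℕ) :
    (unf u i (side V (s i))).im ≠ 0 := by
  obtain ⟨-, -, hp⟩ := bPOS m V hm hV
  obtain ⟨h1, h2, -, ⟨l, hl, h4⟩, -⟩ := h i
  have a := (hp _ _ (h (i + 1)).1).2 _ h2.symm
  rw [h4, lam_add_smul, (hp _ _ h1).1, zero_add] at a
  have b : (conj (side V (s i)) * u i).im ≠ 0 := fun e => by simp [e] at a
  unfold unf; split_ifs
  · intro e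
    apply b
    simp only [Complex.mul_im, Complex.conj_re, Complex.conj_im] at e ⊢
    linarith
  · rwa [mul_comm]

lemma corner (hm : 3 ≤ m) (hV : IsConvexPolygon V) (h : IsTraj V s p u) (X : ℂ) {k j : ℕ}
    (hkj : k < j) (hX : ∀ i, k ≤ i → i ≤ j → ∃ r : ℝ, p i - X = r * side V (s i))
    (e1 : s j = s k) (e2 : ∀ z, unf u j z = unf u k z) : False := by
  obtain ⟨hs, -, -⟩ := bPOS m V hm hV
  have step : ∀ i, k + 1 ≤ i → i ≤ j → ∃ l : ℝ, 0 < l ∧
      unf u i (p i - X) = unf u k (p k - X) + l := by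
    have one : ∀ i, k ≤ i → i + 1 ≤ j → ∃ l : ℝ, 0 < l ∧
        unf u (i + 1) (p (i + 1) - X) = unf u i (p i - X) + l := by
      intro i h1 h2
      obtain ⟨r, hr⟩ := hX (i + 1) (by omega) h2
      obtain ⟨-, -, h3, ⟨l, hl, h4⟩, -⟩ := h i
      refine ⟨‖p (i + 1) - p i‖, ?_, ?_⟩
      · rw [norm_pos_iff, h4, add_sub_cancel_left]
        exact mul_ne_zero (by exact_mod_cast hl.ne') (norm_pos_iff.1 (by rw [h3]; exact one_pos))
      · rw [hr, unf_side hs h, ← hr, ← unf_flight h i, ← unf_add]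
        congr 1; ring
    intro i hi
    induction i, hi using Nat.le_induction with
    | base => exact one k le_rfl
    | succ i hi ih =>
      intro h2
      obtain ⟨l, hl, e⟩ := ih (by omega)
      obtain ⟨l', hl', e'⟩ := one i (by omega) h2
      exact ⟨l + l', by positivity, by rw [e', e]; push_cast; ring⟩
  obtain ⟨l, hl, e⟩ := step j hkj le_rfl
  obtain ⟨r, hr⟩ := hX k le_rfl hkj.le
  obtain ⟨r', hr'⟩ := hX j hkj.le le_rfl
  rw [hr, hr', e1, e2, unf_real, unf_real] at e
  have a := congrArg Complex.im e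
  simp only [Complex.im_ofReal_mul, Complex.add_im, Complex.ofReal_im, add_zero] at a
  rw [mul_right_cancel₀ (trans hm hV h k) a, left_eq_add] at e
  exact hl.ne' (by exact_mod_cast e)

lemma near (hm : 3 ≤ m) (hV : IsConvexPolygon V) (h : IsTraj V s p u) {d : ℝ}
    (hd : ∀ b k, lam V b (V k) < ‖side V b‖ * d → k = b ∨ k = b + 1) (i : ℕ) :
    ∃ X : ℂ, ∀ k, ‖p i - p k‖ < d / 2 → ∃ r : ℝ, p k - X = r * side V (s k) := by
  obtain ⟨hs, hn, hp⟩ := bPOS m V hm hV
  obtain ⟨t, t0, t1, ht⟩ := (mem_open_iff V _ _).1 (h i).1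
  obtain ⟨x, hx⟩ : ∃ x, ∀ b, lam V b (V x) ≤ 2 * lam V b (p i) := by
    rcases le_total t (1 / 2) with a | a
    · refine ⟨s i, fun b => ?_⟩
      rw [ht, lam_seg]
      nlinarith [hn b (s i), hn b (s i + 1)]
    · refine ⟨s i + 1, fun b => ?_⟩
      rw [ht, lam_seg]
      nlinarith [hn b (s i), hn b (s i + 1)]
  refine ⟨V x, fun k hk => ?_⟩
  obtain ⟨r, -, -, hr⟩ := (mem_open_iff V _ _).1 (h k).1
  have a : lam V (s k) (p i) ≤ ‖side V (s k)‖ * ‖p i - p k‖ := by
    rw [show p i = p k + (p i - p k) by ring, lam_add, (hp _ _ (h k).1).1, zero_add,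
      add_sub_cancel_left, ← Complex.norm_conj (side V (s k)), ← norm_mul]
    exact (le_abs_self _).trans (Complex.abs_im_le_norm _)
  have b := mul_lt_mul_of_pos_left hk (norm_pos_iff.2 (hs (s k)))
  rcases hd (s k) x (by linarith [hx (s k)]) with e | e
  · exact ⟨r, by rw [e, hr]; ring⟩
  · exact ⟨r - 1, by rw [e, hr]; simp only [side]; push_cast; ring⟩

lemma shift {l : ℕ → ℝ} {n : ℕ} (hl : ∀ i, l (i + n) = l i) (k : ℕ) :
    ∑ i ∈ Finset.range n, l (i + k) = ∑ i ∈ Finset.range n, l i := by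
  induction k with
  | zero => simp
  | succ k ih =>
    have a := Finset.sum_range_succ (fun i => l (i + k)) n
    have b := Finset.sum_range_succ' (fun i => l (i + k)) n
    have c : ∑ i ∈ Finset.range n, l (i + (k + 1)) = ∑ i ∈ Finset.range n, l (i + 1 + k) :=
      Finset.sum_congr rfl fun i _ => by congr 1; ring
    have e : l (n + k) = l (0 + k) := by rw [add_comm, hl, zero_add]
    linarith

end BOUNCE

open BOUNCE in
theorem bBOUNCE : BOUNCE := by
  classical
  intro m V M hm hV hM hR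
  have : NeZero m := ⟨by omega⟩
  obtain ⟨hs, -, -⟩ := bPOS m V hm hV
  obtain ⟨d, d0, hd⟩ := gap hm hV
  set T : Finset (ZMod m × ℂ × Prop) :=
    Finset.univ ×ˢ (Polynomial.nthRoots M (1 : ℂ)).toFinset ×ˢ Finset.univ with hT
  refine ⟨2 * ((T.card + 1 : ℕ) : ℝ) / d, by positivity, fun s p u n L h hc => ?_⟩
  choose c c1 _ c3 using bDIR m V M hs hR s p u h
  have loc : ∀ i, d / 2 ≤ ∑ k ∈ Finset.range (T.card + 1), ‖p (i + k + 1) - p (i + k)‖ := by
    intro i
    by_contra hlt
    obtain ⟨X, hX⟩ := near hm hV h hd i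
    have hX' : ∀ k, k ≤ T.card + 1 → ∃ r : ℝ, p (i + k) - X = r * side V (s (i + k)) := by
      intro k hk
      refine hX _ (lt_of_le_of_lt ?_ (not_le.1 hlt))
      have a := Finset.sum_range_sub (fun k => p (i + k)) k
      rw [norm_sub_rev, ← add_zero i, add_assoc, zero_add, ← a]
      exact (norm_sum_le _ _).trans (Finset.sum_le_sum_of_subset_of_nonneg
        (Finset.range_mono hk) fun _ _ _ => norm_nonneg _)
    have fin : ∀ k j, k < j → j ≤ T.card → (s (i + k), c (i + k), Even (i + k)) =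
        (s (i + j), c (i + j), Even (i + j)) → False := by
      intro k j hkj hj e
      simp only [Prod.mk.injEq, eq_iff_iff] at e
      refine corner hm hV h X (k := i + k) (j := i + j) (by omega) (fun a a1 a2 => ?_) e.1.symm
        fun z => ?_
      · obtain ⟨b, rfl⟩ := Nat.exists_eq_add_of_le (show i ≤ a by omega)
        exact hX' b (by omega)
      · have : u (i + j) = u (i + k) := by rw [c3, c3 (i + k), e.2.1]; simp only [e.2.2]
        simp only [unf, this, e.2.2]
    obtain ⟨k, hk, j, hj, hne, e⟩ := Finset.exists_ne_map_eq_of_card_lt_of_maps_to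
      (s := Finset.range (T.card + 1)) (t := T) (by simp)
      (f := fun k => (s (i + k), c (i + k), Even (i + k))) (fun k _ => by
        simp [hT, Polynomial.mem_nthRoots hM, c1, Nat.even_or_odd])
    rw [Finset.mem_range] at hk hj
    rcases lt_or_gt_of_ne hne with a | a
    · exact fin k j a (by omega) e
    · exact fin j k a (by omega) e.symm
  have per : ∀ i, ‖p (i + n + 1) - p (i + n)‖ = ‖p (i + 1) - p i‖ := fun i => by
    rw [(hc.2.1 i).2.1, add_right_comm, (hc.2.1 _).2.1]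
  have tot := Finset.sum_le_sum (s := Finset.range n) fun i _ => loc i
  rw [Finset.sum_comm, Finset.sum_congr rfl fun k _ =>
    shift (l := fun i => ‖p (i + 1) - p i‖) per k, hc.2.2] at tot
  simp only [Finset.sum_const, Finset.card_range, nsmul_eq_mul] at tot
  rw [div_mul_eq_mul_div, le_div_iff₀ d0]
  linarith

end Pool.Agent.Lib.BT77
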