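import Pool.Agent.Lib.BT77.B_EXT

namespace Pool.Agent.Lib.BT77

open scoped ComplexConjugate

theorem traj_shift {m : ℕ} {V : ZMod m → ℂ} {s : ℕ → ZMod m} {p u : ℕ → ℂ} (h : IsTraj V s p u)
    (k : ℕ) : IsTraj V (fun j => s (j + k)) (fun j => p (j + k)) (fun j => u (j + k)) := by
  intro i
  have := h (i + k)
  rw [show i + k + 1 = i + 1 + k by ring] at this
  exact this

theorem closed_shift {m : ℕ} {s : ℕ → ZMod m} {p u : ℕ → ℂ} {n : ℕ} {L : ℝ}
    (h : IsClosed s p u n L) (k : ℕ) :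
    IsClosed (fun j => s (j + k)) (fun j => p (j + k)) (fun j => u (j + k)) n L := by
  obtain ⟨h0, h1, h2⟩ := h
  refine ⟨h0, fun i => ?_, ?_⟩
  · have := h1 (i + k)
    rw [show i + k + n = i + n + k by ring] at this
    exact this
  · induction k with
    | zero => simpa using h2
    | succ k ih =>
      have e1 := Finset.sum_range_succ (fun i => ‖p (i + 1 + k) - p (i + k)‖) n
      have e2 := Finset.sum_range_succ' (fun i => ‖p (i + 1 + k) - p (i + k)‖) n
      have e3 : ‖p (n + 1 + k) - p (n + k)‖ = ‖p (0 + 1 + k) - p (0 + k)‖ := by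
        rw [show n + 1 + k = (0 + 1 + k) + n by ring, show n + k = (0 + k) + n by ring,
          (h1 _).2.1, (h1 _).2.1]
      have e4 : ∑ i ∈ Finset.range n, ‖p (i + 1 + (k + 1)) - p (i + (k + 1))‖ =
          ∑ i ∈ Finset.range n, ‖p (i + 1 + 1 + k) - p (i + 1 + k)‖ := by
        refine Finset.sum_congr rfl fun i _ => ?_
        rw [show i + 1 + (k + 1) = i + 1 + 1 + k by ring, show i + (k + 1) = i + 1 + k by ring]
      simp only at ih e1 e2 ⊢
      rw [e4]
      linarith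

theorem band_shift {m : ℕ} {s : ℕ → ZMod m} {p u : ℕ → ℂ} {n : ℕ} {L : ℝ}
    (h : IsClosed s p u n L) (k : ℕ) :
    band (fun j => s (j + k)) (fun j => u (j + k)) = band s u := by
  obtain ⟨h0, h1, -⟩ := h
  have per : ∀ r j, s (j + n * r) = s j ∧ u (j + n * r) = u j := by
    intro r
    induction r with
    | zero => simp
    | succ r ih =>
      intro j
      rw [show j + n * (r + 1) = (j + n * r) + n by ring, (h1 _).1, (h1 _).2.2]
      exact ih j
  ext x
  constructor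
  · rintro ⟨r, rfl⟩
    exact ⟨r + k, by funext j; simp only [add_assoc]⟩
  · rintro ⟨r, rfl⟩
    obtain ⟨n', rfl⟩ : ∃ n', n = n' + 1 := ⟨n - 1, by omega⟩
    refine ⟨r + n' * k, ?_⟩
    funext j
    have e : j + (r + n' * k) + k = (j + r) + (n' + 1) * k := by ring
    simp only [e, (per k (j + r)).1, (per k (j + r)).2]

theorem terms_finite {m : ℕ} (hm : 3 ≤ m) (V : ZMod m → ℂ) {M : ℕ} (hM : 0 < M) :
    (terms V M).Finite := by
  have : NeZero m := ⟨by omega⟩
  have h1 : {c : ℂ | c ^ (2 * M) = 1}.Finite := by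
    refine ((Polynomial.nthRoots (2 * M) (1 : ℂ)).toFinset.finite_toSet).subset fun c hc => ?_
    simp only [Finset.mem_coe, Multiset.mem_toFinset]
    exact (Polynomial.mem_nthRoots (by omega)).2 hc
  have h2 := h1.prod (Set.finite_univ (α := ZMod m))
  refine ((h2.image fun x => x.1 * ((V x.2 - V 0) / side V 0)).union
    (h2.image fun x => x.1 * conj ((V x.2 - V 0) / side V 0))).subset ?_
  rintro z ⟨c, a, hc, h | h⟩
  · exact Or.inl ⟨(c, a), ⟨hc, trivial⟩, h.symm⟩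
  · exact Or.inr ⟨(c, a), ⟨hc, trivial⟩, h.symm⟩

theorem bMAIN (hC : CIRCG) (hR : RAT) (hB : BOUNCE) : MAIN := by
  intro m V hm hV hq ε hε
  have : NeZero m := ⟨by omega⟩
  obtain ⟨hs, -, -⟩ := bPOS m V hm hV
  obtain ⟨M, hM, hRD⟩ := hR m V hm hV hq
  obtain ⟨B, hB0, hB1⟩ := hB m V M hm hV hM hRD
  obtain ⟨C, hC1⟩ := hC (terms V M) (terms_finite hm V hM) ε hε
  refine ⟨C * (4 * B + 1) ^ ε * (2 * m), fun L hL => ?_⟩
  have hs0 : 0 < ‖side V 0‖ := norm_pos_iff.2 (hs 0)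
  have hN : 1 ≤ (4 * B + 1) * L := by nlinarith
  obtain ⟨hfin, hcard⟩ := hC1 ((4 * B + 1) * L) (2 * L / ‖side V 0‖) hN (by positivity)
  have rep : ∀ b ∈ bands V L, ∃ (s : ℕ → ZMod m) (u : ℕ → ℂ) (e : Bool) (t₀ : ℝ),
      b = band s u ∧ 2 * (L : ℂ) * u 0 / side V 0 ∈
        sums (terms V M) ((4 * B + 1) * L) (2 * L / ‖side V 0‖) ∧ 0 < t₀ ∧ t₀ < 1 ∧
      ∀ t : ℝ, 0 < t → t < 1 → (if e then t₀ ≤ t else t ≤ t₀) →
        ∃ q, IsTraj V s q u ∧ q 0 = V (s 0) + t * side V (s 0) := by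
    rintro b ⟨s, p, u, n, h, hc, rfl⟩
    obtain ⟨k, e, t₀, h0, h1, h2⟩ := bEXT m V hm hV s p u n L h hc
    have h' := traj_shift h k
    have hc' := closed_shift hc k
    refine ⟨fun j => s (j + k), fun j => u (j + k), e, t₀, (band_shift hc k).symm, ?_, h0, h1, ?_⟩
    · obtain ⟨f, hf, hsum⟩ := bHOL m V M hs hRD _ _ _ n L h' hc'
      refine ⟨?_, 4 * n, f, ?_, hf, hsum⟩
      · have hu := (h' 0).2.2.1
        rw [norm_div, norm_mul, hu, norm_mul, Complex.norm_real, Real.norm_eq_abs,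
          abs_of_nonneg (by linarith)]
        simp
      · have := hB1 s p u n L h hc
        push_cast
        nlinarith
    · intro t a b c
      obtain ⟨q, hq1, hq2⟩ := h2 t a b c
      exact ⟨fun j => q (j + k), traj_shift hq1 k, by simpa using hq2⟩
  choose! S U E T₀ r1 r2 r3 r4 r5 using rep
  set φ : Set (ℕ → ZMod m × ℂ) → ℂ × ZMod m × Bool :=
    fun b => (2 * (L : ℂ) * U b 0 / side V 0, S b 0, E b) with hφ
  have hinj : Set.InjOn φ (bands V L) := by
    intro b hb b' hb' hbb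
    simp only [hφ, Prod.mk.injEq] at hbb
    obtain ⟨e1, e2, e3⟩ := hbb
    have hL0 : (2 * (L : ℂ)) ≠ 0 := by
      have : (L : ℂ) ≠ 0 := by exact_mod_cast (by linarith : L ≠ 0)
      simpa using this
    have eu : U b 0 = U b' 0 :=
      mul_left_cancel₀ hL0 ((div_left_inj' (hs 0)).1 e1)
    have ht : ∃ t : ℝ, 0 < t ∧ t < 1 ∧ (if E b then T₀ b ≤ t else t ≤ T₀ b) ∧
        (if E b' then T₀ b' ≤ t else t ≤ T₀ b') := by
      rw [← e3]
      cases E b
      · exact ⟨min (T₀ b) (T₀ b'), lt_min (r3 b hb) (r3 b' hb'),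
          (min_le_left _ _).trans_lt (r4 b hb), by simp, by simp⟩
      · exact ⟨max (T₀ b) (T₀ b'), (r3 b hb).trans_le (le_max_left _ _),
          max_lt (r4 b hb) (r4 b' hb'), by simp, by simp⟩
    obtain ⟨t, t0, t1, t2, t3⟩ := ht
    obtain ⟨q, q1, q2⟩ := r5 b hb t t0 t1 t2
    obtain ⟨q', q1', q2'⟩ := r5 b' hb' t t0 t1 t3
    have hd := bDET m V hm hV _ _ _ _ _ _ q1 q1' e2 (by rw [q2, q2', e2]) eu
    have a1 : S b = S b' := funext fun i => (hd i).1
    have a2 : U b = U b' := funext fun i => (hd i).2.2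
    rw [r1 b hb, r1 b' hb', a1, a2]
  have hmaps : Set.MapsTo φ (bands V L)
      (sums (terms V M) ((4 * B + 1) * L) (2 * L / ‖side V 0‖) ×ˢ Set.univ) :=
    fun b hb => ⟨r2 b hb, trivial⟩
  have hfin2 : (sums (terms V M) ((4 * B + 1) * L) (2 * L / ‖side V 0‖) ×ˢ
      (Set.univ : Set (ZMod m × Bool))).Finite := hfin.prod Set.finite_univ
  refine ⟨Set.Finite.of_injOn hmaps hinj hfin2, ?_⟩
  have h1 := Set.ncard_le_ncard_of_injOn φ hmaps hinj hfin2
  rw [Set.ncard_prod, Set.ncard_univ, Nat.card_prod, Nat.card_zmod] at h1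
  have h2 : Nat.card Bool = 2 := by simp
  rw [h2] at h1
  have h3 : ((bands V L).ncard : ℝ) ≤
      (sums (terms V M) ((4 * B + 1) * L) (2 * L / ‖side V 0‖)).ncard * (m * 2) := by
    exact_mod_cast h1
  rw [Real.mul_rpow (by linarith) (by linarith)] at hcard
  have hm0 : (0 : ℝ) ≤ m * 2 := by positivity
  calc _ ≤ _ := h3
    _ ≤ C * ((4 * B + 1) ^ ε * L ^ ε) * (m * 2) := mul_le_mul_of_nonneg_right hcard hm0
    _ = _ := by ring

end Pool.Agent.Lib.BT77
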