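import Pool.Agent.Lib.BT77.B_POS

/-! Row RAT: rational angles give roots of unity. -/

namespace Pool.Agent.Lib.BT77

open scoped ComplexConjugate

namespace RAT

lemma pow_den (w : ℂ) (hw : w ≠ 0) (q : ℚ) (h : |w.arg| = Real.pi * q) :
    (w / conj w) ^ q.den = 1 := by
  have hn : (‖w‖ : ℂ) ≠ 0 := by exact_mod_cast norm_ne_zero_iff.mpr hw
  have h1 : w = ‖w‖ * Complex.exp (w.arg * Complex.I) := (Complex.norm_mul_exp_arg_mul_I w).symm
  have h2 : conj w = ‖w‖ * Complex.exp (-(w.arg * Complex.I)) := by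
    have h3 := congrArg conj h1
    rw [map_mul, Complex.conj_ofReal, ← Complex.exp_conj, map_mul, Complex.conj_ofReal,
      Complex.conj_I, mul_neg] at h3
    exact h3
  have h4 : w / conj w = Complex.exp (2 * (w.arg * Complex.I)) := by
    rw [h2, div_eq_iff (mul_ne_zero hn (Complex.exp_ne_zero _)), mul_left_comm, ← Complex.exp_add]
    rw [show 2 * ((w.arg : ℂ) * Complex.I) + -(w.arg * Complex.I) = w.arg * Complex.I by ring]
    exact h1
  have h5 : (q : ℝ) * q.den = q.num := by exact_mod_cast Rat.mul_den_eq_num q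
  rw [h4, ← Complex.exp_nat_mul, Complex.exp_eq_one_iff]
  rcases abs_choice w.arg with h6 | h6
  · refine ⟨q.num, ?_⟩
    have h7 : w.arg * q.den = Real.pi * q.num := by rw [← h6, h, mul_assoc, h5]
    have h8 : (w.arg : ℂ) * q.den = Real.pi * q.num := by exact_mod_cast h7
    linear_combination 2 * Complex.I * h8
  · refine ⟨-q.num, ?_⟩
    have h7 : -w.arg * q.den = Real.pi * q.num := by rw [← h6, h, mul_assoc, h5]
    have h8 : -(w.arg : ℂ) * q.den = Real.pi * q.num := by exact_mod_cast h7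
    push_cast
    linear_combination -2 * Complex.I * h8

end RAT

theorem bRAT : RAT := by
  intro m V hm hV hq
  have : NeZero m := ⟨by omega⟩
  have hs : ∀ a, side V a ≠ 0 := (bPOS m V hm hV).1
  have hc : ∀ a, conj (side V a) ≠ 0 := fun a => (map_ne_zero _).mpr (hs a)
  have hd : ∀ a, ∃ d : ℕ, 0 < d ∧
      (side V a / conj (side V a)) ^ d = (side V (a + 1) / conj (side V (a + 1))) ^ d := by
    intro a
    obtain ⟨q, hq1⟩ := hq (a + 1)
    have e1 : V (a + 1 - 1) -ᵥ V (a + 1) = -side V a := by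
      rw [add_sub_cancel_right, vsub_eq_sub, side, neg_sub]
    have e2 : V (a + 1 + 1) -ᵥ V (a + 1) = side V (a + 1) := rfl
    rw [EuclideanGeometry.angle, e1, e2,
      Complex.angle_eq_abs_arg (neg_ne_zero.mpr (hs a)) (hs (a + 1))] at hq1
    have h1 := RAT.pow_den _ (div_ne_zero (neg_ne_zero.mpr (hs a)) (hs (a + 1))) q hq1
    refine ⟨q.den, q.den_pos, ?_⟩
    have h2 : side V a / conj (side V a) =
        (-side V a / side V (a + 1)) / conj (-side V a / side V (a + 1)) *
          (side V (a + 1) / conj (side V (a + 1))) := by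
      have := hs a; have := hs (a + 1); have := hc a; have := hc (a + 1)
      rw [map_div₀, map_neg]
      field_simp
    rw [h2, mul_pow, h1, one_mul]
  choose d hd0 hd1 using hd
  have hM : ∀ a, (side V a / conj (side V a)) ^ (∏ b, d b) =
      (side V (a + 1) / conj (side V (a + 1))) ^ (∏ b, d b) := by
    intro a
    obtain ⟨c, hc1⟩ : d a ∣ ∏ b, d b := Finset.dvd_prod_of_mem d (Finset.mem_univ a)
    rw [hc1, pow_mul, pow_mul, hd1]
  have hN : ∀ k : ℕ, (side V (k : ZMod m) / conj (side V (k : ZMod m))) ^ (∏ b, d b) =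
      (side V 0 / conj (side V 0)) ^ (∏ b, d b) := by
    intro k
    induction k with
    | zero => rw [Nat.cast_zero]
    | succ k ih => rw [Nat.cast_succ, ← hM, ih]
  refine ⟨∏ b, d b, Finset.prod_pos fun b _ => hd0 b, fun a => ?_⟩
  have h3 := hN a.val
  rw [ZMod.natCast_zmod_val] at h3
  rw [mul_pow, h3, ← mul_pow, div_mul_div_comm, mul_comm (side V 0), div_self, one_pow]
  exact mul_ne_zero (hc 0) (hs 0)

end Pool.Agent.Lib.BT77
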