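import Pool.Agent.Lib.BT77.Circ
import Pool.Agent.Lib.BT77.B_RAT
import Pool.Agent.Lib.BT77.B_BOUNCE
import Pool.Agent.Lib.BT77.B_MAIN

namespace Pool.Agent.Lib.BT77

theorem main : MAIN := bMAIN circ bRAT bBOUNCE

end Pool.Agent.Lib.BT77
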