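import Pool.Agent.Lib.BT77.Blue

namespace Pool.Agent.Lib.BT77

open scoped ComplexConjugate
open NumberField

namespace CIRCG

abbrev Om : Type := AlgebraicClosure ℚ

theorem kron (s B : ℕ) : ∃ α : Fin s → Om,
    ∀ f : MvPolynomial (Fin s) ℚ, f ≠ 0 → f.totalDegree < B → MvPolynomial.aeval α f ≠ 0 := by
  classical
  obtain ⟨p, hp, hpp⟩ := Nat.exists_infinite_primes (B ^ s + 1)
  have : NeZero p := ⟨hpp.ne_zero⟩
  have : NeZero (p : Om) := ⟨by exact_mod_cast hpp.ne_zero⟩
  obtain ⟨θ, hθ⟩ := HasEnoughRootsOfUnity.exists_primitiveRoot Om p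
  have hdeg : (minpoly ℚ θ).natDegree = p - 1 := by
    rw [← Polynomial.cyclotomic_eq_minpoly_rat hθ hpp.pos, Polynomial.natDegree_cyclotomic,
      Nat.totient_prime hpp]
  refine ⟨fun i => θ ^ (B ^ (i : ℕ)), fun f hf hB h0 => ?_⟩
  let e : (Fin s →₀ ℕ) → ℕ := fun d => ∑ i : Fin s, d i * B ^ (i : ℕ)
  have hlt : ∀ d ∈ f.support, ∀ i, d i < B := fun d hd i =>
    lt_of_le_of_lt ((MvPolynomial.monomial_le_degreeOf i hd).trans
      (MvPolynomial.degreeOf_le_totalDegree f i)) hB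
  have he : ∀ d (hd : d ∈ f.support),
      e d = (finFunctionFinEquiv (fun i => (⟨d i, hlt d hd i⟩ : Fin B)) : ℕ) := fun d hd => rfl
  have hinj : ∀ d ∈ f.support, ∀ d' ∈ f.support, e d = e d' → d = d' := by
    intro d hd d' hd' h
    rw [he d hd, he d' hd'] at h
    have h2 := finFunctionFinEquiv.injective (Fin.ext h)
    ext i
    exact congrArg Fin.val (congrFun h2 i)
  let P : Polynomial ℚ := ∑ d ∈ f.support, Polynomial.monomial (e d) (f.coeff d)
  have hP : P ≠ 0 := by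
    obtain ⟨d0, hd0⟩ := MvPolynomial.support_nonempty.mpr hf
    intro hz
    have h1 : P.coeff (e d0) = f.coeff d0 := by
      simp only [P, Polynomial.finsetSum_coeff, Polynomial.coeff_monomial]
      rw [Finset.sum_eq_single d0]
      · simp
      · intro d hd hne
        rw [if_neg (fun h => hne (hinj d hd d0 hd0 h))]
      · intro h; exact absurd hd0 h
    rw [hz, Polynomial.coeff_zero] at h1
    exact MvPolynomial.mem_support_iff.mp hd0 h1.symm
  have hPd : P.natDegree ≤ B ^ s - 1 := by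
    refine Polynomial.natDegree_sum_le_of_forall_le _ _ (fun d hd => ?_)
    refine (Polynomial.natDegree_monomial_le _).trans ?_
    have := (finFunctionFinEquiv (fun i => (⟨d i, hlt d hd i⟩ : Fin B))).isLt
    rw [he d hd]; omega
  have hev : Polynomial.aeval θ P = 0 := by
    rw [← h0, MvPolynomial.aeval_def, MvPolynomial.eval₂_eq']
    simp only [P, map_sum, Polynomial.aeval_monomial]
    refine Finset.sum_congr rfl (fun d _ => ?_)
    congr 1
    simp only [e]
    rw [← Finset.prod_pow_eq_pow_sum]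
    refine Finset.prod_congr rfl (fun i _ => ?_)
    rw [← pow_mul, mul_comm]
  have hle := Polynomial.natDegree_le_natDegree (minpoly.degree_le_of_ne_zero ℚ θ hP hev)
  have hpos : 0 < B ^ s := by
    have : 0 < B := by omega
    positivity
  omega

theorem lift (A R : Type) [CommRing A] [CommRing R] [IsDomain R] [Algebra A R]
    [Algebra.IsIntegral A R] (hi : Function.Injective (algebraMap A R)) (ψ : A →+* Om) :
    ∃ φ : R →+* Om, ∀ a, φ (algebraMap A R a) = ψ a := by
  have : (RingHom.ker ψ).IsPrime := RingHom.ker_isPrime ψ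
  obtain ⟨Q, hQ, hc⟩ := Ideal.exists_ideal_over_prime_of_isIntegral_of_isDomain (S := R)
    (RingHom.ker ψ) (by rw [(RingHom.injective_iff_ker_eq_bot _).mp hi]; exact bot_le)
  have := hQ
  let P : Ideal A := Q.comap (algebraMap A R)
  have hP : ∀ a ∈ P, ψ a = 0 := fun a ha => by
    have : a ∈ RingHom.ker ψ := hc ▸ ha
    exact this
  let ψ' : A ⧸ P →+* Om := Ideal.Quotient.lift P ψ hP
  have hψ' : Function.Injective ψ' := by
    rw [injective_iff_map_eq_zero]
    intro x hx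
    obtain ⟨a, rfl⟩ := Ideal.Quotient.mk_surjective x
    rw [Ideal.Quotient.eq_zero_iff_mem]
    have : a ∈ RingHom.ker ψ := hx
    show a ∈ Q.comap (algebraMap A R)
    rw [hc]; exact this
  let : Algebra (A ⧸ P) Om := ψ'.toAlgebra
  have : FaithfulSMul (A ⧸ P) Om := (faithfulSMul_iff_algebraMap_injective _ _).mpr hψ'
  have : FaithfulSMul (A ⧸ P) (R ⧸ Q) :=
    (faithfulSMul_iff_algebraMap_injective _ _).mpr Ideal.algebraMap_quotient_injective
  have : Algebra.IsIntegral (A ⧸ P) (R ⧸ Q) := Algebra.IsIntegral.quotient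
  let χ : (R ⧸ Q) →ₐ[A ⧸ P] Om := IsAlgClosed.lift
  refine ⟨χ.toRingHom.comp (Ideal.Quotient.mk Q), fun a => ?_⟩
  exact χ.commutes (Ideal.Quotient.mk P a)

theorem detdeg {s : ℕ} {ι : Type} [Fintype ι] [DecidableEq ι]
    (M : Matrix ι ι (MvPolynomial (Fin s) ℚ)) (B : ℕ) (h : ∀ j k, (M j k).totalDegree ≤ B) :
    M.det.totalDegree ≤ Fintype.card ι * B := by
  rw [Matrix.det_apply]
  refine MvPolynomial.totalDegree_finsetSum_le (fun σ _ => ?_)
  have h1 : (∏ i, M (σ i) i).totalDegree ≤ Fintype.card ι * B := by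
    refine (MvPolynomial.totalDegree_finsetProd _ _).trans ?_
    refine (Finset.sum_le_sum (fun i _ => h (σ i) i)).trans ?_
    simp
  rcases Int.units_eq_one_or (Equiv.Perm.sign σ) with h2 | h2 <;> rw [h2]
  · simpa using h1
  · simpa using h1

theorem spec (R : Type) [CommRing R] [IsDomain R] [Algebra ℚ R] [Algebra.FiniteType ℚ R]
    (T : Set R) (hT : T.Finite) :
    ∃ φ : R →+* Om, ∀ m ∈ AddSubgroup.closure T, φ m = 0 → m = 0 := by
  classical
  obtain ⟨s, g, hg, hfin⟩ := exists_finite_inj_algHom_of_fg ℚ R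
  let A : Type := MvPolynomial (Fin s) ℚ
  let : Algebra A R := g.toRingHom.toAlgebra
  have : Module.Finite A R := hfin
  have hi : Function.Injective (algebraMap A R) := hg
  obtain ⟨n, v, hv⟩ := Module.Finite.exists_fin (R := A) (M := R)
  obtain ⟨I, hI, hmax⟩ := exists_maximal_linearIndepOn A v
  let w : I → R := fun j => v j
  have hw : LinearIndependent A w := hI
  have hr : Set.range w = v '' I := by
    ext x; simp [w]
  have hex : ∀ i, ∃ a : A, a ≠ 0 ∧ a • v i ∈ Submodule.span A (Set.range w) := by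
    intro i
    rw [hr]
    by_cases h : i ∈ I
    · exact ⟨1, one_ne_zero, by
        rw [one_smul]; exact Submodule.subset_span ⟨i, h, rfl⟩⟩
    · exact hmax i h
  choose a ha0 ha using hex
  let d : A := ∏ i, a i
  have hd0 : d ≠ 0 := Finset.prod_ne_zero_iff.mpr (fun i _ => ha0 i)
  have hd : ∀ x : R, ∃ c : I → A, ∑ k, c k • w k = d • x := by
    intro x
    rw [← Submodule.mem_span_range_iff_exists_fun]
    have hx : x ∈ Submodule.span A (Set.range v) := by rw [hv]; trivial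
    induction hx using Submodule.span_induction with
    | mem x hx =>
      obtain ⟨i, rfl⟩ := hx
      have : d = (∏ j ∈ Finset.univ.erase i, a j) * a i :=
        (Finset.prod_erase_mul _ _ (Finset.mem_univ i)).symm
      rw [this, mul_smul]
      exact Submodule.smul_mem _ _ (ha i)
    | zero => simp
    | add x y _ _ hx hy => rw [smul_add]; exact Submodule.add_mem _ hx hy
    | smul r x _ hx => rw [smul_comm]; exact Submodule.smul_mem _ _ hx
  choose c hc using hd
  obtain ⟨B, hB⟩ : ∃ B : ℕ, ∀ t ∈ T, ∀ j k, (c (t * w j) k).totalDegree ≤ B := by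
    have : Finite T := hT
    obtain ⟨B, hB⟩ := (Set.finite_range
      (fun x : T × I × I => (c (x.1.1 * w x.2.1) x.2.2).totalDegree)).bddAbove
    exact ⟨B, fun t ht j k => hB ⟨(⟨t, ht⟩, j, k), rfl⟩⟩
  obtain ⟨α, hα⟩ := kron s (Fintype.card I * B + d.totalDegree + 1)
  obtain ⟨φ, hφ⟩ := lift A R hi (MvPolynomial.aeval α : A →ₐ[ℚ] Om).toRingHom
  have hsm : ∀ (r : A) (x : R), φ (r • x) = MvPolynomial.aeval α r * φ x := by
    intro r x
    rw [Algebra.smul_def, map_mul, hφ]; rfl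
  refine ⟨φ, fun m hm h0 => ?_⟩
  obtain ⟨M, hM, hMw⟩ : ∃ M : Matrix I I A, (∀ j k, (M j k).totalDegree ≤ B) ∧
      ∀ j, ∑ k, M j k • w k = d • (m * w j) := by
    clear h0
    induction hm using AddSubgroup.closure_induction with
    | mem t ht => exact ⟨fun j k => c (t * w j) k, hB t ht, fun j => hc _⟩
    | zero => exact ⟨0, by simp [A], by simp⟩
    | add x y _ _ hx hy =>
      obtain ⟨M, h1, h2⟩ := hx
      obtain ⟨M', h1', h2'⟩ := hy
      refine ⟨M + M', fun j k => (MvPolynomial.totalDegree_add _ _).trans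
        (max_le (h1 j k) (h1' j k)), fun j => ?_⟩
      simp only [Matrix.add_apply, add_smul, Finset.sum_add_distrib, h2, h2', add_mul, smul_add]
    | neg x _ hx =>
      obtain ⟨M, h1, h2⟩ := hx
      refine ⟨-M, fun j k => (MvPolynomial.totalDegree_neg _).le.trans (h1 j k), fun j => ?_⟩
      simp only [Matrix.neg_apply, neg_smul, Finset.sum_neg_distrib, h2, neg_mul, smul_neg]
  by_contra hm0
  have hdet : M.det ≠ 0 := by
    intro hz
    rw [← Matrix.det_transpose] at hz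
    obtain ⟨u, hu0, hu⟩ := Matrix.exists_mulVec_eq_zero_iff.mpr hz
    have h1 : (algebraMap A R d * m) * ∑ j, u j • w j = 0 := by
      have h2 : ∀ j, (algebraMap A R d * m) * (u j • w j) = ∑ k, (M j k * u j) • w k := by
        intro j
        have : ∑ k, (M j k * u j) • w k = u j • ∑ k, M j k • w k := by
          rw [Finset.smul_sum]
          exact Finset.sum_congr rfl (fun k _ => by rw [mul_comm, mul_smul])
        rw [this, hMw]
        simp only [Algebra.smul_def]; ring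
      rw [Finset.mul_sum, Finset.sum_congr rfl (fun j _ => h2 j), Finset.sum_comm]
      refine Finset.sum_eq_zero (fun k _ => ?_)
      rw [← Finset.sum_smul]
      have : ∑ j, M j k * u j = 0 := congrFun hu k
      rw [this, zero_smul]
    have h3 : algebraMap A R d * m ≠ 0 :=
      mul_ne_zero (fun h => hd0 (hi (by rw [h, map_zero]))) hm0
    have h4 := (mul_eq_zero.mp h1).resolve_left h3
    exact hu0 (funext (Fintype.linearIndependent_iff.mp hw u h4))
  have hdet' : (M.map (MvPolynomial.aeval α : A →ₐ[ℚ] Om)).det ≠ 0 := by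
    have h1 := (MvPolynomial.aeval α : A →ₐ[ℚ] Om).map_det M
    have h2 := hα M.det hdet (lt_of_le_of_lt (detdeg M B hM) (by omega))
    intro h; exact h2 (h1.trans h)
  have hw0 : (fun k => φ (w k)) = 0 := by
    refine Matrix.eq_zero_of_mulVec_eq_zero hdet' (funext fun j => ?_)
    have h1 := congrArg φ (hMw j)
    rw [map_sum, hsm, map_mul, h0, zero_mul, mul_zero] at h1
    simp only [hsm] at h1
    exact h1
  have h1 := congrArg φ (hc 1)
  rw [map_sum, hsm, map_one, mul_one] at h1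
  refine hα d hd0 (by omega) (h1.symm.trans (Finset.sum_eq_zero (fun k _ => ?_)))
  rw [hsm, congrFun hw0 k]; simp

theorem key (T : Set ℂ) (hT : T.Finite) : ∃ (K : Type) (_ : Field K) (_ : NumberField K) (c : ℝ)
    (X : ℂ → 𝓞 K → Prop), 1 ≤ c ∧
    (∀ (n : ℕ) (f : ℕ → ℂ), (∀ i, f i ∈ T) → ∃ x, X (∑ i ∈ Finset.range n, f i) x ∧
      ∀ σ : K →+* ℂ, ‖σ (x : K)‖ ≤ c * n) ∧
    (∀ z z' x, X z x → X z' x → z = z') ∧ (∀ z, X z 0 → z = 0) ∧
    (∀ z w z' w' x y x' y', X z x → X w y → X z' x' → X w' y' → z * w = z' * w' →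
      x * y = x' * y') := by
  classical
  let R : Subalgebra ℚ ℂ := Algebra.adjoin ℚ T
  have : Algebra.FiniteType ℚ R :=
    (Subalgebra.fg_iff_finiteType R).mp (Subalgebra.fg_def.mpr ⟨T, hT, rfl⟩)
  let T' : Set R := Subtype.val ⁻¹' T
  have hT' : T'.Finite := hT.preimage Subtype.val_injective.injOn
  obtain ⟨φ, hφ⟩ := spec R T' hT'
  let K : IntermediateField ℚ Om := IntermediateField.adjoin ℚ (φ '' T')
  have : Finite (φ '' T') := hT'.image φ
  have : FiniteDimensional ℚ K := IntermediateField.finiteDimensional_adjoin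
    (fun x _ => ((AlgebraicClosure.isAlgebraic ℚ).isAlgebraic x).isIntegral)
  have hK : NumberField K := ⟨⟩
  have : Fintype T' := hT'.fintype
  let k : T' → K := fun t => ⟨φ t, IntermediateField.subset_adjoin ℚ _ ⟨t, t.2, rfl⟩⟩
  have : Algebra.IsAlgebraic ℤ K := IsLocalization.isAlgebraic ℚ (nonZeroDivisors ℤ) |>.trans _ _ _
  obtain ⟨D, hD0, hD⟩ := Algebra.IsAlgebraic.exists_integral_multiples ℤ
    (Finset.univ.image k)
  let o : T' → 𝓞 K := fun t => ⟨D • k t, hD _ (Finset.mem_image_of_mem _ (Finset.mem_univ t))⟩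
  obtain ⟨c, hc⟩ := (Set.finite_range
    (fun x : T' × (K →+* ℂ) => ‖x.2 (o x.1 : K)‖)).bddAbove
  have hD' : (D : Om) ≠ 0 := by exact_mod_cast hD0
  have hinj : ∀ x y : 𝓞 K, (((x : K) : Om)) = ((y : K) : Om) → x = y := fun x y h =>
    RingOfIntegers.ext (Subtype.ext h)
  refine ⟨K, inferInstance, hK, max c 1, fun z x => ∃ m ∈ AddSubgroup.closure T',
    (m : ℂ) = z ∧ ((x : K) : Om) = D * φ m, le_max_right _ _, ?_, ?_, ?_, ?_⟩
  · intro n f hf
    induction n with
    | zero => exact ⟨0, ⟨0, zero_mem _, by simp, by simp⟩, by simp⟩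
    | succ n ih =>
      obtain ⟨x, ⟨m, hm, h1, h2⟩, h3⟩ := ih
      let t : T' := ⟨⟨f n, Algebra.subset_adjoin (hf n)⟩, hf n⟩
      refine ⟨x + o t, ⟨m + t, add_mem hm (AddSubgroup.subset_closure t.2), ?_, ?_⟩, fun σ => ?_⟩
      · rw [Finset.sum_range_succ, ← h1]; rfl
      · have h4 : (((o t : 𝓞 K) : K) : Om) = D * φ t := by
          show ((D • k t : K) : Om) = _
          rw [zsmul_eq_mul]; simp [k]
        rw [map_add φ, mul_add, ← h2, ← h4]; rfl
      · have h4 : ‖σ (o t : K)‖ ≤ max c 1 := (hc ⟨(t, σ), rfl⟩).trans (le_max_left _ _)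
        have h5 : σ ((x + o t : 𝓞 K) : K) = σ (x : K) + σ (o t : K) := by
          rw [← map_add]; rfl
        rw [h5]
        refine (norm_add_le _ _).trans ?_
        have := h3 σ
        push_cast; linarith
  · rintro z z' x ⟨m, hm, rfl, h2⟩ ⟨m', hm', rfl, h2'⟩
    have h1 : φ (m - m') = 0 := by
      rw [map_sub, mul_left_cancel₀ hD' (h2.symm.trans h2'), sub_self]
    rw [sub_eq_zero.mp (hφ _ (sub_mem hm hm') h1)]
  · rintro z ⟨m, hm, rfl, h2⟩
    have h1 : φ m = 0 := by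
      have : (D : Om) * φ m = 0 := h2.symm
      exact (mul_eq_zero.mp this).resolve_left hD'
    rw [hφ m hm h1]; rfl
  · rintro z w z' w' x y x' y' ⟨a, -, rfl, ha⟩ ⟨b, -, rfl, hb⟩ ⟨a', -, rfl, ha'⟩
      ⟨b', -, rfl, hb'⟩ h
    have h1 : a * b = a' * b' := Subtype.ext h
    have h2 : φ a * φ b = φ a' * φ b' := by rw [← map_mul, ← map_mul, h1]
    apply hinj
    have h3 : ∀ u v : 𝓞 K, (((u * v : 𝓞 K) : K) : Om) = ((u : K) : Om) * ((v : K) : Om) :=
      fun u v => rfl
    rw [h3, h3, ha, hb, ha', hb']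
    linear_combination (D : Om) ^ 2 * h2

end CIRCG

/-- short sums of any finitely many complex numbers on a circle -/
theorem bCIRCG (hNT : NT) : CIRCG := by
  classical
  intro T hT ε hε
  obtain ⟨K, _, _, c, X, hc, hX, hinj, hz, hmul⟩ :=
    CIRCG.key (T ∪ (fun z => conj z) '' T) (hT.union (hT.image _))
  obtain ⟨C, hC⟩ := hNT K (ε / 2) (by positivity)
  refine ⟨max C 0 * c ^ ε, fun N r hN hr => ?_⟩
  have hcN : 1 ≤ c * N := by nlinarith
  have hall : ∀ z ∈ sums T N r, ∃ x y, X z x ∧ X (conj z) y ∧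
      (∀ σ : K →+* ℂ, ‖σ (x : K)‖ ≤ c * N) ∧ (∀ σ : K →+* ℂ, ‖σ (y : K)‖ ≤ c * N) := by
    rintro z ⟨-, n, f, hn, hf, rfl⟩
    obtain ⟨x, hx, hx'⟩ := hX n f (fun i => Or.inl (hf i))
    obtain ⟨y, hy, hy'⟩ := hX n (fun i => conj (f i)) (fun i => Or.inr ⟨f i, hf i, rfl⟩)
    have h : c * n ≤ c * N := by gcongr
    exact ⟨x, y, hx, by rw [map_sum]; exact hy, fun σ => (hx' σ).trans h, fun σ => (hy' σ).trans h⟩
  have hnn : 0 ≤ max C 0 * c ^ ε * N ^ ε := by
    have : 0 ≤ max C 0 := le_max_right _ _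
    positivity
  rcases (sums T N r).eq_empty_or_nonempty with he | ⟨z₀, hz₀⟩
  · rw [he]; exact ⟨Set.finite_empty, by simpa using hnn⟩
  choose! x y hx hy hx' hy' using hall
  have hsq : ∀ z ∈ sums T N r, z * conj z = ((r ^ 2 : ℝ) : ℂ) := fun z h => by
    rw [Complex.mul_conj, Complex.normSq_eq_norm_sq, h.1]
  have hne : ∀ z ∈ sums T N r, z ≠ 0 := fun z h h0 => by
    have := h.1; rw [h0, norm_zero] at this; exact hr.ne this
  have hb0 : x z₀ * y z₀ ≠ 0 := by
    refine mul_ne_zero (fun h => hne z₀ hz₀ (hz _ (h ▸ hx z₀ hz₀))) (fun h => ?_)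
    have := hz _ (h ▸ hy z₀ hz₀)
    exact hne z₀ hz₀ (by simpa using this)
  have hB1 : c * N ≤ (c * N) ^ 2 := by nlinarith
  obtain ⟨hfin, hcard⟩ := hC ((c * N) ^ 2) (x z₀ * y z₀) (hcN.trans hB1) hb0 (fun σ => by
    have h : σ ((x z₀ * y z₀ : 𝓞 K) : K) = σ (x z₀ : K) * σ (y z₀ : K) := by
      rw [← map_mul]; rfl
    rw [h, norm_mul, sq]
    exact mul_le_mul (hx' z₀ hz₀ σ) (hy' z₀ hz₀ σ) (norm_nonneg _) (by linarith))
  have hmaps : ∀ z ∈ sums T N r, x z ∈
      {a : 𝓞 K | a ∣ x z₀ * y z₀ ∧ ∀ σ : K →+* ℂ, ‖σ (a : K)‖ ≤ (c * N) ^ 2} := fun z h =>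
    ⟨⟨y z, hmul _ _ _ _ _ _ _ _ (hx z₀ hz₀) (hy z₀ hz₀) (hx z h) (hy z h)
      ((hsq z₀ hz₀).trans (hsq z h).symm)⟩, fun σ => (hx' z h σ).trans hB1⟩
  have hio : Set.InjOn x (sums T N r) := fun z h z' h' e =>
    hinj z z' (x z) (hx z h) (e ▸ hx z' h')
  refine ⟨Set.Finite.of_injOn hmaps hio hfin, ?_⟩
  have h1 := Set.ncard_le_ncard_of_injOn x hmaps hio hfin
  have h2 : ((c * N) ^ 2) ^ (ε / 2) = c ^ ε * N ^ ε := by
    rw [← Real.mul_rpow (by linarith) (by linarith), ← Real.rpow_natCast,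
      ← Real.rpow_mul (by linarith)]
    congr 1; push_cast; ring
  refine (Nat.cast_le.mpr h1).trans (hcard.trans ?_)
  rw [h2, mul_assoc]
  have : 0 ≤ c ^ ε * N ^ ε := by positivity
  exact mul_le_mul_of_nonneg_right (le_max_left _ _) this

end Pool.Agent.Lib.BT77
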