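import Pool.Agent.Lib.BT77.B_HOL

namespace Pool.Agent.Lib.BT77

open scoped ComplexConjugate

theorem periodic_mod {α : Type} (f : ℕ → α) (N : ℕ) (h : ∀ i, f (i + N) = f i) (i : ℕ) :
    f i = f (i % N) := by
  have : ∀ k j, f (j + N * k) = f j := by
    intro k
    induction k with
    | zero => simp
    | succ k ih =>
      intro j
      rw [show j + N * (k + 1) = (j + N * k) + N by ring, h, ih]
  conv_lhs => rw [← Nat.mod_add_div i N]
  exact this _ _

theorem bEXT : EXT := by
  intro m V hm hV s p u n L h hc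
  obtain ⟨hs, -, hpos⟩ := bPOS m V hm hV
  obtain ⟨hN, h1, -⟩ := closed_two hc
  choose t ht0 ht1 ht using fun i => (mem_open_iff V (s i) (p i)).1 (h i).1
  set w : ℕ → ℝ := fun i => (conj (side V (s i)) * u i).im with hw
  have wpos : ∀ i, 0 < w i := by
    intro i
    obtain ⟨a1, a2, -, ⟨l, hl, a4⟩, -⟩ := h i
    have g0 := (hpos _ _ a1).1
    have g1 := (hpos _ _ (h (i + 1)).1).2 (s i) (Ne.symm a2)
    rw [a4, lam_add_smul, g0, zero_add] at g1
    exact (pos_iff_pos_of_mul_pos g1).1 hl
  have wneg : ∀ i, (conj (side V (s (i + 1))) * u i).im = - w (i + 1) := by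
    intro i
    have h0 := hs (s (i + 1))
    have hc0 : conj (side V (s (i + 1))) ≠ 0 := by simpa using h0
    have e : conj (side V (s (i + 1))) * u (i + 1) = conj (conj (side V (s (i + 1))) * u i) := by
      rw [(h i).2.2.2.2, map_mul, Complex.conj_conj]
      field_simp
    simp only [hw]
    rw [e, Complex.conj_im, neg_neg]
  set c : ℕ → ℝ := fun i => (-1) ^ i / w i with hcdef
  have cw : ∀ i, c i * w i = (-1) ^ i := fun i => div_mul_cancel₀ _ (wpos i).ne'
  have cne : ∀ i, c i ≠ 0 := fun i => div_ne_zero (pow_ne_zero _ (by norm_num)) (wpos i).ne'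
  have cper : ∀ i, c (i + 2 * n) = c i := by
    intro i
    simp only [hcdef, hw]
    rw [(h1 i).1, (h1 i).2.2, pow_add, pow_mul]
    norm_num
  have tper : ∀ i, t (i + 2 * n) = t i := by
    intro i
    have e := ht (i + 2 * n)
    rw [(h1 i).1, (h1 i).2.1, ht i] at e
    have e2 := mul_right_cancel₀ (hs (s i)) (add_left_cancel e)
    exact_mod_cast e2.symm
  have traj : ∀ τ : ℝ, (∀ i, 0 < t i + τ * c i ∧ t i + τ * c i < 1) →
      IsTraj V s (fun i => V (s i) + ((t i + τ * c i : ℝ) : ℂ) * side V (s i)) u := by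
    intro τ hτ i
    have mem : ∀ j, V (s j) + ((t j + τ * c j : ℝ) : ℂ) * side V (s j) ∈
        openSegment ℝ (V (s j)) (V (s j + 1)) :=
      fun j => (mem_open_iff V _ _).2 ⟨_, (hτ j).1, (hτ j).2, rfl⟩
    obtain ⟨a1, a2, a3, ⟨l, hl, a4⟩, a5⟩ := h i
    refine ⟨mem i, a2, a3, ?_, a5⟩
    set d : ℂ := (V (s (i + 1)) + ((t (i + 1) + τ * c (i + 1) : ℝ) : ℂ) * side V (s (i + 1))) -
      (V (s i) + ((t i + τ * c i : ℝ) : ℂ) * side V (s i)) with hd
    have hu := conj_mul_one a3
    have hd2 : d = l * u i + ((τ * c (i + 1) : ℝ) : ℂ) * side V (s (i + 1)) +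
        ((-(τ * c i) : ℝ) : ℂ) * side V (s i) := by
      have b1 := ht i
      have b2 := ht (i + 1)
      rw [hd]; push_cast
      linear_combination a4 - b2 + b1
    have him : (conj d * u i).im = 0 := by
      have e : conj d * u i = (l : ℂ) + ((τ * c (i + 1) : ℝ) : ℂ) * (conj (side V (s (i + 1))) * u i) +
          ((-(τ * c i) : ℝ) : ℂ) * (conj (side V (s i)) * u i) := by
        rw [hd2]
        simp only [map_add, map_mul, Complex.conj_ofReal]
        linear_combination (l : ℂ) * hu
      rw [e, Complex.add_im, Complex.add_im, Complex.im_ofReal_mul, Complex.im_ofReal_mul, wneg,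
        Complex.ofReal_im]
      have b1 := cw i
      have b2 := cw (i + 1)
      rw [pow_succ] at b2
      change 0 + τ * c (i + 1) * -w (i + 1) + -(τ * c i) * w i = 0
      linear_combination (-τ) * b2 - τ * b1
    have hre : conj d * u i = ((conj d * u i).re : ℂ) := by
      apply Complex.ext <;> simp only [Complex.ofReal_re, Complex.ofReal_im, him]
    have hdl : d = ((conj d * u i).re : ℂ) * u i := by
      have e := congrArg conj hre
      rw [map_mul, Complex.conj_conj, Complex.conj_ofReal] at e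
      rw [← e]
      linear_combination (-d) * hu
    have hq : V (s (i + 1)) + ((t (i + 1) + τ * c (i + 1) : ℝ) : ℂ) * side V (s (i + 1)) =
        (V (s i) + ((t i + τ * c i : ℝ) : ℂ) * side V (s i)) + ((conj d * u i).re : ℂ) * u i := by
      rw [← hdl, hd]; ring
    refine ⟨(conj d * u i).re, ?_, hq⟩
    have g0 := (hpos _ _ (mem i)).1
    have g1 := (hpos _ _ (mem (i + 1))).2 (s i) (Ne.symm a2)
    rw [hq, lam_add_smul, g0, zero_add] at g1
    exact (pos_iff_pos_of_mul_pos g1).2 (wpos i)
  set E : ℕ → ℝ := fun i => if 0 < c i then (1 - t i) / c i else t i / (- c i) with hE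
  obtain ⟨k, -, hk⟩ := Finset.exists_min_image (Finset.range (2 * n)) E
    ⟨0, Finset.mem_range.2 hN⟩
  have hk' : ∀ i, E k ≤ E i := by
    intro i
    have := hk (i % (2 * n)) (Finset.mem_range.2 (Nat.mod_lt _ hN))
    have e : E i = E (i % (2 * n)) := periodic_mod E (2 * n) (fun j => by
      simp only [hE]; rw [cper, tper]) i
    rwa [e]
  have ok : ∀ τ : ℝ, 0 ≤ τ → τ < E k → ∀ i, 0 < t i + τ * c i ∧ t i + τ * c i < 1 := by
    intro τ h0 hτ i
    have h2 := hτ.trans_le (hk' i)
    have b0 := ht0 i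
    have b1 := ht1 i
    simp only [hE] at h2
    split_ifs at h2 with hci
    · rw [lt_div_iff₀ hci] at h2
      have := mul_nonneg h0 hci.le
      constructor <;> linarith
    · have hci' : 0 < - c i := by
        have := lt_of_le_of_ne (not_lt.1 hci) (cne i)
        linarith
      rw [lt_div_iff₀ hci'] at h2
      have := mul_nonneg h0 hci'.le
      constructor <;> linarith
  refine ⟨k, decide (0 < c k), t k, ht0 k, ht1 k, ?_⟩
  intro x x0 x1 hx
  have hτ : 0 ≤ (x - t k) / c k ∧ (x - t k) / c k < E k := by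
    simp only [hE]
    by_cases hck : 0 < c k
    · simp only [hck, decide_true, if_true] at hx ⊢
      exact ⟨div_nonneg (by linarith) hck.le, div_lt_div_of_pos_right (by linarith) hck⟩
    · simp only [hck, decide_false, if_false, Bool.false_eq_true] at hx ⊢
      have hci' : 0 < - c k := by
        have := lt_of_le_of_ne (not_lt.1 hck) (cne k)
        linarith
      have e : (x - t k) / c k = (t k - x) / (- c k) := by
        rw [← neg_div_neg_eq]; ring
      rw [e]
      exact ⟨div_nonneg (by linarith) hci'.le, div_lt_div_of_pos_right (by linarith) hci'⟩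
  refine ⟨_, traj _ (ok _ hτ.1 hτ.2), ?_⟩
  have e : t k + (x - t k) / c k * c k = x := by
    rw [div_mul_cancel₀ _ (cne k)]; ring
  simp only [e]

end Pool.Agent.Lib.BT77
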