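import Pool.Agent.Lib.BT77.B_POS

namespace Pool.Agent.Lib.BT77

open scoped ComplexConjugate

/-- the unfolding map of flight `i` -/
noncomputable def unf (u : ℕ → ℂ) (i : ℕ) (z : ℂ) : ℂ :=
  if Even i then conj (u i) * z else u i * conj z

theorem unf_add (u : ℕ → ℂ) (i : ℕ) (z w : ℂ) : unf u i (z + w) = unf u i z + unf u i w := by
  unfold unf; split_ifs
  · ring
  · rw [map_add]; ring

theorem unf_sub (u : ℕ → ℂ) (i : ℕ) (z w : ℂ) : unf u i (z - w) = unf u i z - unf u i w := by
  unfold unf; split_ifs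
  · ring
  · rw [map_sub]; ring

theorem conj_mul_one {z : ℂ} (h : ‖z‖ = 1) : conj z * z = 1 := by
  rw [mul_comm, Complex.mul_conj, Complex.normSq_eq_norm_sq, h]; simp

theorem closed_two {m : ℕ} {s : ℕ → ZMod m} {p u : ℕ → ℂ} {n : ℕ} {L : ℝ}
    (h : IsClosed s p u n L) : IsClosed s p u (2 * n) (2 * L) := by
  obtain ⟨h0, h1, h2⟩ := h
  refine ⟨by omega, fun i => ?_, ?_⟩
  · have e : i + 2 * n = (i + n) + n := by ring
    rw [e]
    exact ⟨(h1 _).1.trans (h1 _).1, (h1 _).2.1.trans (h1 _).2.1, (h1 _).2.2.trans (h1 _).2.2⟩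
  · rw [two_mul, Finset.sum_range_add, h2]
    have : ∑ x ∈ Finset.range n, ‖p (n + x + 1) - p (n + x)‖ = L := by
      rw [← h2]
      refine Finset.sum_congr rfl fun x _ => ?_
      have e1 : n + x + 1 = (x + 1) + n := by ring
      have e2 : n + x = x + n := by ring
      rw [e1, e2, (h1 _).2.1, (h1 _).2.1]
    rw [this]; ring

theorem unf_flight {m : ℕ} {V : ZMod m → ℂ} {s : ℕ → ZMod m} {p u : ℕ → ℂ} (h : IsTraj V s p u)
    (i : ℕ) : unf u i (p (i + 1) - p i) = (‖p (i + 1) - p i‖ : ℝ) := by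
  obtain ⟨-, -, h3, ⟨l, hl, h4⟩, -⟩ := h i
  have e : p (i + 1) - p i = l * u i := by rw [h4]; ring
  have e2 : ‖p (i + 1) - p i‖ = l := by
    rw [e, norm_mul, h3, Complex.norm_real, Real.norm_eq_abs, abs_of_pos hl, mul_one]
  rw [e2, e]
  have := conj_mul_one h3
  unfold unf; split_ifs
  · linear_combination (l : ℂ) * this
  · rw [map_mul, Complex.conj_ofReal]
    linear_combination (l : ℂ) * this

theorem unf_side {m : ℕ} {V : ZMod m → ℂ} {s : ℕ → ZMod m} {p u : ℕ → ℂ} (hs : ∀ a, side V a ≠ 0)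
    (h : IsTraj V s p u) (i : ℕ) (t : ℝ) :
    unf u (i + 1) (t * side V (s (i + 1))) = unf u i (t * side V (s (i + 1))) := by
  have h5 := (h i).2.2.2.2
  have h0 := hs (s (i + 1))
  have hc0 : conj (side V (s (i + 1))) ≠ 0 := by simpa using h0
  unfold unf
  by_cases he : Even i
  · have : ¬ Even (i + 1) := by simpa [Nat.even_add_one] using he
    rw [if_pos he, if_neg this, h5, map_mul, Complex.conj_ofReal]
    field_simp
  · have : Even (i + 1) := by simpa [Nat.even_add_one] using he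
    rw [if_neg he, if_pos this, h5]
    simp only [map_mul, map_div₀, Complex.conj_conj, Complex.conj_ofReal]
    field_simp

theorem unf_term {m : ℕ} {V : ZMod m → ℂ} {M : ℕ} {s : ℕ → ZMod m} {p u : ℕ → ℂ}
    (hs : ∀ a, side V a ≠ 0) (hM : RootDir V M) (h : IsTraj V s p u) (i : ℕ) (a : ZMod m)
    (e : ℂ) (he : e ^ 2 = 1) : e * (u 0 * unf u i (V a - V 0) / side V 0) ∈ terms V M := by
  obtain ⟨c, c1, c2, c3⟩ := bDIR m V M hs hM s p u h i
  have h0 := hs 0
  have hc0 : conj (side V 0) ≠ 0 := by simpa using h0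
  have hu := conj_mul_one (h 0).2.2.1
  have hee : e ^ (2 * M) = 1 := by rw [pow_mul, he, one_pow]
  have hcc : c ^ (2 * M) = 1 := by rw [mul_comm, pow_mul, c1, one_pow]
  unfold unf
  by_cases hi : Even i
  · rw [if_pos hi] at c3 ⊢
    refine ⟨e * conj c, a, ?_, Or.inl ?_⟩
    · rw [mul_pow, hee, ← map_pow, hcc]; simp
    · rw [c3, map_mul]
      have : u 0 * (conj c * conj (u 0) * (V a - V 0)) = conj c * (V a - V 0) := by
        linear_combination (conj c * (V a - V 0)) * hu
      rw [this]; ring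
  · rw [if_neg hi] at c3 ⊢
    refine ⟨e * c, a, ?_, Or.inr ?_⟩
    · rw [mul_pow, hee, hcc]; simp
    · rw [c3, map_div₀]
      have : u 0 * (c * (side V 0 / conj (side V 0)) * conj (u 0) * conj (V a - V 0)) =
          c * (side V 0 / conj (side V 0)) * conj (V a - V 0) := by
        linear_combination (c * (side V 0 / conj (side V 0)) * conj (V a - V 0)) * hu
      rw [this]
      field_simp

theorem sum_pairs (N : ℕ) (f : ℕ → ℂ) :
    ∑ i ∈ Finset.range (2 * N), f i = ∑ i ∈ Finset.range N, (f (2 * i) + f (2 * i + 1)) := by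
  induction N with
  | zero => simp
  | succ N ih =>
    rw [show 2 * (N + 1) = 2 * N + 1 + 1 by ring, Finset.sum_range_succ, Finset.sum_range_succ, ih,
      Finset.sum_range_succ]
    ring

theorem bHOL : HOL := by
  intro m V M hs hM s p u n L h hc
  obtain ⟨-, h1, h2⟩ := closed_two hc
  have key : (2 * L : ℂ) = ∑ i ∈ Finset.range (2 * n),
      (unf u i (V (s (i + 1)) - V 0) - unf u (i + 1) (V (s (i + 1)) - V 0)) := by
    have e1 : ∀ i, (‖p (i + 1) - p i‖ : ℂ) =
        (unf u i (V (s (i + 1)) - V 0) - unf u (i + 1) (V (s (i + 1)) - V 0)) +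
          (unf u (i + 1) (p (i + 1) - V 0) - unf u i (p i - V 0)) := by
      intro i
      obtain ⟨t, -, -, ht⟩ := (mem_open_iff V _ _).1 (h (i + 1)).1
      have e2 : p (i + 1) - V 0 = (V (s (i + 1)) - V 0) + t * side V (s (i + 1)) := by
        rw [ht]; ring
      have e3 : p (i + 1) - p i = (p (i + 1) - V 0) - (p i - V 0) := by ring
      rw [← unf_flight h i, e3, unf_sub, e2, unf_add, unf_add, unf_side hs h i t]
      ring
    have e4 : ((2 * L : ℝ) : ℂ) = ∑ i ∈ Finset.range (2 * n), (‖p (i + 1) - p i‖ : ℂ) := by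
      rw [← h2]; push_cast; rfl
    have e5 : ∑ i ∈ Finset.range (2 * n),
        (unf u (i + 1) (p (i + 1) - V 0) - unf u i (p i - V 0)) = 0 := by
      rw [Finset.sum_range_sub (fun i => unf u i (p i - V 0))]
      have a1 : p (2 * n) = p 0 := by simpa using (h1 0).2.1
      have a2 : u (2 * n) = u 0 := by simpa using (h1 0).2.2
      simp [unf, a1, a2]
    push_cast at e4
    rw [e4, Finset.sum_congr rfl fun i _ => e1 i, Finset.sum_add_distrib, e5, add_zero]
  refine ⟨fun j => if Even j then 1 * (u 0 * unf u (j / 2) (V (s (j / 2 + 1)) - V 0) / side V 0)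
    else (-1) * (u 0 * unf u (j / 2 + 1) (V (s (j / 2 + 1)) - V 0) / side V 0), ?_, ?_⟩
  · intro j
    beta_reduce
    split_ifs
    · exact unf_term hs hM h _ _ 1 (by norm_num)
    · exact unf_term hs hM h _ _ (-1) (by norm_num)
  · rw [show 4 * n = 2 * (2 * n) by ring, sum_pairs, key, Finset.sum_mul, Finset.sum_div]
    refine Finset.sum_congr rfl fun i _ => ?_
    have a1 : Even (2 * i) := even_two_mul i
    have a2 : ¬ Even (2 * i + 1) := by simp
    have a3 : 2 * i / 2 = i := by omega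
    have a4 : (2 * i + 1) / 2 = i := by omega
    rw [if_pos a1, if_neg a2, a3, a4]
    ring

end Pool.Agent.Lib.BT77
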