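import Pool.Agent.Lib.BT77.Blue

namespace Pool.Agent.Lib.BT77

open scoped ComplexConjugate

theorem two_ne {m : ℕ} (hm : 3 ≤ m) : (1 : ZMod m) ≠ 0 ∧ (1 + 1 : ZMod m) ≠ 0 := by
  constructor
  · intro h
    have h1 : ((1 : ℕ) : ZMod m) = 0 := by simpa using h
    rw [ZMod.natCast_eq_zero_iff] at h1
    have := Nat.le_of_dvd (by norm_num) h1
    omega
  · intro h
    have h1 : ((2 : ℕ) : ZMod m) = 0 := by
      push_cast
      rw [← h]; norm_num
    rw [ZMod.natCast_eq_zero_iff] at h1
    have := Nat.le_of_dvd (by norm_num) h1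
    omega

theorem lam_add {m : ℕ} (V : ZMod m → ℂ) (b : ZMod m) (z w : ℂ) :
    lam V b (z + w) = lam V b z + (conj (side V b) * w).im := by
  unfold lam
  rw [← Complex.add_im]; congr 1; ring

theorem lam_add_smul {m : ℕ} (V : ZMod m → ℂ) (b : ZMod m) (z w : ℂ) (t : ℝ) :
    lam V b (z + t * w) = lam V b z + t * (conj (side V b) * w).im := by
  rw [lam_add]
  have : conj (side V b) * ((t : ℂ) * w) = (t : ℂ) * (conj (side V b) * w) := by ring
  rw [this, Complex.im_ofReal_mul]

theorem lam_self {m : ℕ} (V : ZMod m → ℂ) (b : ZMod m) : lam V b (V b) = 0 := by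
  simp [lam]

theorem lam_succ {m : ℕ} (V : ZMod m → ℂ) (b : ZMod m) : lam V b (V (b + 1)) = 0 := by
  unfold lam
  have : V (b + 1) - V b = side V b := rfl
  rw [this, mul_comm, Complex.mul_conj]
  simp

theorem mem_open_iff {m : ℕ} (V : ZMod m → ℂ) (a : ZMod m) (z : ℂ) :
    z ∈ openSegment ℝ (V a) (V (a + 1)) ↔ ∃ t : ℝ, 0 < t ∧ t < 1 ∧ z = V a + t * side V a := by
  rw [openSegment_eq_image']
  constructor
  · rintro ⟨t, ⟨h0, h1⟩, rfl⟩
    exact ⟨t, h0, h1, by simp [side]⟩
  · rintro ⟨t, h0, h1, rfl⟩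
    exact ⟨t, ⟨h0, h1⟩, by simp [side]⟩

theorem lam_seg {m : ℕ} (V : ZMod m → ℂ) (a b : ZMod m) (t : ℝ) :
    lam V b (V a + t * side V a) = (1 - t) * lam V b (V a) + t * lam V b (V (a + 1)) := by
  have h : V (a + 1) = V a + (1 : ℝ) * side V a := by simp [side]
  rw [h, lam_add_smul, lam_add_smul]
  ring

theorem bPOS : POS := by
  intro m V hm hV
  obtain ⟨h1, h2⟩ := two_ne hm
  have hnn : ∀ a k, 0 ≤ lam V a (V k) := by
    intro a k
    by_cases hk : k = a
    · rw [hk, lam_self]
    by_cases hk' : k = a + 1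
    · rw [hk', lam_succ]
    exact (hV a k hk hk').le
  refine ⟨?_, hnn, ?_⟩
  · intro a ha
    have := hV a (a + 1 + 1) (by
      intro h; apply h2; linear_combination h) (by
      intro h; apply h1; linear_combination h)
    rw [ha] at this
    simp at this
  · intro a z hz
    obtain ⟨t, h0, ht1, rfl⟩ := (mem_open_iff V a z).1 hz
    refine ⟨by rw [lam_seg, lam_self, lam_succ]; ring, ?_⟩
    intro b hb
    rw [lam_seg]
    have ha := hnn b a
    have ha' := hnn b (a + 1)
    by_cases hk : a = b + 1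
    · have : 0 < lam V b (V (a + 1)) := hV b (a + 1) (by
        intro h; apply h2; rw [hk] at h; linear_combination h) (by
        intro h; apply hb; exact (add_right_cancel h).symm)
      have h3 := mul_pos h0 this
      have h4 := mul_nonneg (sub_pos.2 ht1).le ha
      linarith
    · have : 0 < lam V b (V a) := hV b a (Ne.symm hb) hk
      have h3 := mul_pos (sub_pos.2 ht1) this
      have h4 := mul_nonneg h0.le ha'
      linarith

theorem bDET : DET := by
  intro m V hm hV s p u s' p' u' h h' hs hp hu i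
  obtain ⟨-, -, hpos⟩ := bPOS m V hm hV
  induction i with
  | zero => exact ⟨hs, hp, hu⟩
  | succ i ih =>
    obtain ⟨e1, e2, e3⟩ := ih
    obtain ⟨a1, a2, -, ⟨l, hl, a4⟩, a5⟩ := h i
    obtain ⟨b1, b2, -, ⟨l', hl', b4⟩, b5⟩ := h' i
    have c1 := (h (i + 1)).1
    have c2 := (h' (i + 1)).1
    have key : ∀ (b b' a : ZMod m) (x v : ℂ) (y y' : ℝ), 0 < y → b ≠ a →
        x ∈ openSegment ℝ (V a) (V (a + 1)) → x + y * v ∈ openSegment ℝ (V b) (V (b + 1)) →
        x + y' * v ∈ openSegment ℝ (V b') (V (b' + 1)) → y' ≤ y := by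
      intro b b' a x v y y' hy hba hx h1 h2
      have g0 := (hpos a x hx).2 b hba
      have g1 := (hpos b _ h1).1
      have g2 : 0 ≤ lam V b (x + y' * v) := by
        by_cases hbb : b = b'
        · rw [hbb]; exact (hpos b' _ h2).1.ge
        · exact ((hpos b' _ h2).2 b hbb).le
      rw [lam_add_smul] at g1 g2
      set k := (conj (side V b) * v).im
      have hk : k < 0 := by
        by_contra hk
        have := mul_nonneg hy.le (not_lt.1 hk)
        linarith
      by_contra hlt
      have := mul_neg_of_pos_of_neg (sub_pos.2 (not_le.1 hlt)) hk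
      nlinarith
    rw [a4] at c1
    rw [b4, ← e2, ← e3] at c2
    have l1 := key _ _ _ _ _ _ _ hl a2 a1 c1 c2
    have l2 := key _ _ _ _ _ _ _ hl' (by rw [e1]; exact b2) a1 c2 c1
    have hll : l = l' := le_antisymm l2 l1
    have hss : s (i + 1) = s' (i + 1) := by
      by_contra hne
      have g1 := (hpos _ _ c1).1
      rw [← hll] at c2
      have g2 := (hpos _ _ c2).2 _ hne
      linarith
    refine ⟨hss, by rw [a4, b4, e2, e3, hll], by rw [a5, b5, hss, e3]⟩

theorem bDIR : DIR := by
  intro m V M hs hM s p u h i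
  have hn : ∀ a, ‖side V a / conj (side V a) * (conj (side V 0) / side V 0)‖ = 1 := by
    intro a
    have h1 := norm_ne_zero_iff.2 (hs a)
    have h0 := norm_ne_zero_iff.2 (hs 0)
    rw [norm_mul, norm_div, norm_div, Complex.norm_conj, Complex.norm_conj]
    field_simp
  have hc0 : conj (side V 0) ≠ 0 := by simpa using hs 0
  have h00 := hs 0
  induction i with
  | zero => exact ⟨1, by simp, by simp, by simp⟩
  | succ i ih =>
    obtain ⟨c, c1, c2, c3⟩ := ih
    refine ⟨side V (s (i + 1)) / conj (side V (s (i + 1))) * (conj (side V 0) / side V 0) * conj c,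
      ?_, ?_, ?_⟩
    · rw [mul_pow, hM, ← map_pow, c1]; simp
    · rw [norm_mul, hn, Complex.norm_conj, c2]; simp
    · rw [(h i).2.2.2.2, c3]
      by_cases he : Even i
      · have : ¬ Even (i + 1) := by simpa [Nat.even_add_one] using he
        rw [if_pos he, if_neg this, map_mul]
        field_simp
      · have : Even (i + 1) := by simpa [Nat.even_add_one] using he
        rw [if_neg he, if_pos this]
        simp only [map_mul, map_div₀, Complex.conj_conj]
        ring

end Pool.Agent.Lib.BT77
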