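import Pool.Agent.Lib.BT77.B_IDV
import Pool.Agent.Lib.BT77.B_GEN
import Pool.Agent.Lib.BT77.B_NT
import Pool.Agent.Lib.BT77.B_CIRCG

namespace Pool.Agent.Lib.BT77

theorem circ : CIRCG := bCIRCG (bNT bIDV bGEN)

end Pool.Agent.Lib.BT77
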