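import Mathlib

/-! Billiards in a convex polygon: definitions used by the statement. -/

namespace Pool.Agent.Lib.BT77

open scoped ComplexConjugate

/-- the side vector from vertex `a` to vertex `a + 1` -/
def side {m : ℕ} (V : ZMod m → ℂ) (a : ZMod m) : ℂ := V (a + 1) - V a

/-- the vertices are those of a convex polygon, listed counterclockwise: every other vertex lies
strictly to the left of each directed side -/
def IsConvexPolygon {m : ℕ} (V : ZMod m → ℂ) : Prop :=
  ∀ a k : ZMod m, k ≠ a → k ≠ a + 1 → 0 < (conj (side V a) * (V k - V a)).im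

/-- a billiard trajectory that never hits a vertex: the `i`-th bounce is at the point `p i` in
the open side number `s i`, the unit direction after it is `u i` -/
def IsTraj {m : ℕ} (V : ZMod m → ℂ) (s : ℕ → ZMod m) (p u : ℕ → ℂ) : Prop :=
  ∀ i, p i ∈ openSegment ℝ (V (s i)) (V (s i + 1)) ∧ s (i + 1) ≠ s i ∧ ‖u i‖ = 1 ∧
    (∃ l : ℝ, 0 < l ∧ p (i + 1) = p i + l * u i) ∧
    u (i + 1) = side V (s (i + 1)) / conj (side V (s (i + 1))) * conj (u i)

/-- the trajectory closes up after `n` bounces, having run the length `L` -/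
def IsClosed {m : ℕ} (s : ℕ → ZMod m) (p u : ℕ → ℂ) (n : ℕ) (L : ℝ) : Prop :=
  0 < n ∧ (∀ i, s (i + n) = s i ∧ p (i + n) = p i ∧ u (i + n) = u i) ∧
    ∑ i ∈ Finset.range n, ‖p (i + 1) - p i‖ = L

/-- the sequence of sides and directions, up to the choice of the first bounce -/
def band {m : ℕ} (s : ℕ → ZMod m) (u : ℕ → ℂ) : Set (ℕ → ZMod m × ℂ) :=
  {x | ∃ k, x = fun j => (s (j + k), u (j + k))}

/-- the bands of parallel closed trajectories of length `L` -/
def bands {m : ℕ} (V : ZMod m → ℂ) (L : ℝ) : Set (Set (ℕ → ZMod m × ℂ)) :=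
  {b | ∃ s p u n, IsTraj V s p u ∧ IsClosed s p u n L ∧ b = band s u}

end Pool.Agent.Lib.BT77
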